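import Mathlib

/-!
# Decision trees and planted instances

A decision tree on `V → Bool` is given by the set `Q w` of the variables which are queried on the
input `w`. The map `π` changes only variables of `B`, and its composition with the bijection `θ`
changes only variables of `A`. A tree distinguishes `w` and `π w` for random `w` only if it queries
variables of `A` and of `B`.
-/

set_option autoImplicit false
set_option linter.unusedSectionVars false

open Finset Classical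

namespace Pool.Agent.V8H16.OV

variable {V : Type*} [Fintype V] [DecidableEq V]

/-- The number of the elements with a property. -/
noncomputable def cnt {α : Type*} [Fintype α] (P : α → Prop) : ℕ := (univ.filter P).card

theorem cnt_mono {α : Type*} [Fintype α] {P R : α → Prop} (h : ∀ a, P a → R a) : cnt P ≤ cnt R := by
  unfold cnt
  apply card_le_card
  intro a ha
  simp only [mem_filter, mem_univ, true_and] at ha ⊢
  exact h a ha

theorem cnt_congr {α : Type*} [Fintype α] {P R : α → Prop} (h : ∀ a, P a ↔ R a) : cnt P = cnt R :=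
  le_antisymm (cnt_mono fun a => (h a).1) (cnt_mono fun a => (h a).2)

theorem cnt_or {α : Type*} [Fintype α] {P R Z : α → Prop} (h : ∀ a, P a → R a ∨ Z a) :
    cnt P ≤ cnt R + cnt Z := by
  unfold cnt
  refine le_trans (card_le_card ?_) (card_union_le _ _)
  intro a ha
  simp only [mem_filter, mem_univ, true_and, mem_union] at ha ⊢
  exact h a ha

theorem cnt_split {α : Type*} [Fintype α] (P R : α → Prop) :
    cnt P = cnt (fun a => P a ∧ R a) + cnt (fun a => P a ∧ ¬ R a) := by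
  unfold cnt
  have h := card_filter_add_card_filter_not (s := univ.filter P) R
  rw [filter_filter, filter_filter] at h
  rw [← h]
  congr

theorem cnt_bij {α : Type*} [Fintype α] (P : α → Prop) {θ : α → α} (hθ : Function.Bijective θ) :
    cnt (fun a => P (θ a)) = cnt P := by
  unfold cnt
  refine card_bij (fun a _ => θ a) ?_ ?_ ?_
  · intro a ha
    simpa using ha
  · intro a _ b _ h
    exact hθ.1 h
  · intro b hb
    obtain ⟨a, rfl⟩ := hθ.2 b
    exact ⟨a, by simpa using hb, rfl⟩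

theorem cnt_exists {α : Type*} [Fintype α] {S : ℕ} (P : Fin S → α → Prop) :
    cnt (fun a => ∃ s, P s a) ≤ ∑ s, cnt (P s) := by
  unfold cnt
  refine le_trans (card_le_card ?_) card_biUnion_le
  intro a ha
  simpa using ha

theorem cnt_le_card {α : Type*} [Fintype α] (P : α → Prop) : cnt P ≤ Fintype.card α := by
  unfold cnt
  exact card_le_univ _

/-- `G` is determined by the leaf of the tree. -/
def Leafy (Q : (V → Bool) → Finset V) (G : (V → Bool) → Prop) : Prop :=
  ∀ w w', (∀ v ∈ Q w, w v = w' v) → (G w ↔ G w')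

/-- The queries form a decision tree. -/
def IsTree (Q : (V → Bool) → Finset V) : Prop :=
  ∀ w w', (∀ v ∈ Q w, w v = w' v) → Q w' = Q w

/-- The tree queries a variable of `A`. -/
def Hit (Q : (V → Bool) → Finset V) (A : Finset V) (w : V → Bool) : Prop := ∃ v ∈ Q w, v ∈ A

theorem leafy_hit {Q : (V → Bool) → Finset V} (hQ : IsTree Q) (A : Finset V) : Leafy Q (Hit Q A) := by
  intro w w' h
  unfold Hit
  rw [hQ w w' h]

theorem Leafy.and {Q : (V → Bool) → Finset V} {G H : (V → Bool) → Prop} (hG : Leafy Q G)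
    (hH : Leafy Q H) : Leafy Q (fun w => G w ∧ H w) := fun w w' h =>
  and_congr (hG w w' h) (hH w w' h)

theorem Leafy.not {Q : (V → Bool) → Finset V} {G : (V → Bool) → Prop} (hG : Leafy Q G) :
    Leafy Q (fun w => ¬ G w) := fun w w' h =>
  not_congr (hG w w' h)

theorem leafy_true (Q : (V → Bool) → Finset V) : Leafy Q (fun _ => True) := fun _ _ _ => Iff.rfl

section pair

variable {Q : (V → Bool) → Finset V} {A B : Finset V} {π θ : (V → Bool) → (V → Bool)}

/-- If the tree does not query a variable which is changed then the leaf does not change. -/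
theorem change_iff (hQ : IsTree Q) {G : (V → Bool) → Prop} (hG : Leafy Q G) {C : Finset V}
    {w w' : V → Bool} (h : ∀ v, v ∉ C → w' v = w v) :
    (G w' ∧ ¬ Hit Q C w') ↔ (G w ∧ ¬ Hit Q C w) := by
  have key : ∀ u u' : V → Bool, (∀ v, v ∉ C → u' v = u v) → (G u ∧ ¬ Hit Q C u) →
      (G u' ∧ ¬ Hit Q C u') := by
    intro u u' huu hu
    have hag : ∀ v ∈ Q u, u v = u' v := by
      intro v hv
      refine (huu v ?_).symm
      intro hC
      exact hu.2 ⟨v, hv, hC⟩
    exact ⟨(hG u u' hag).1 hu.1, fun h' => hu.2 (((leafy_hit hQ C) u u' hag).2 h')⟩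
  exact ⟨key w' w (fun v hv => (h v hv).symm), key w w' h⟩

/-- The tree queries both sets. -/
def Joint (Q : (V → Bool) → Finset V) (A B : Finset V) (w : V → Bool) : Prop := Hit Q A w ∧ Hit Q B w

theorem count_parts (hQ : IsTree Q) (hθ : Function.Bijective θ) (h1 : ∀ w v, v ∉ B → π w v = w v)
    (h2 : ∀ w v, v ∉ A → π (θ w) v = w v) {G : (V → Bool) → Prop} (hG : Leafy Q G) :
    cnt (fun w => G (π w) ∧ ¬ Joint Q A B (π w)) = cnt (fun w => G w ∧ ¬ Joint Q A B w) := by
  have e1 : cnt (fun w => G (π w) ∧ ¬ Joint Q A B (π w)) =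
      cnt (fun w => G (π w) ∧ ¬ Hit Q B (π w)) +
      cnt (fun w => (G (π w) ∧ Hit Q B (π w)) ∧ ¬ Hit Q A (π w)) := by
    rw [cnt_split (fun w => G (π w) ∧ ¬ Joint Q A B (π w)) (fun w => ¬ Hit Q B (π w))]
    congr 1 <;> apply cnt_congr <;> intro w <;> unfold Joint <;> tauto
  have e2 : cnt (fun w => G w ∧ ¬ Joint Q A B w) =
      cnt (fun w => G w ∧ ¬ Hit Q B w) + cnt (fun w => (G w ∧ Hit Q B w) ∧ ¬ Hit Q A w) := by
    rw [cnt_split (fun w => G w ∧ ¬ Joint Q A B w) (fun w => ¬ Hit Q B w)]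
    congr 1 <;> apply cnt_congr <;> intro w <;> unfold Joint <;> tauto
  rw [e1, e2]
  congr 1
  · apply cnt_congr
    intro w
    exact change_iff hQ hG (h1 w)
  · rw [← cnt_bij (fun w => (G (π w) ∧ Hit Q B (π w)) ∧ ¬ Hit Q A (π w)) hθ]
    apply cnt_congr
    intro w
    exact change_iff (G := fun w => G w ∧ Hit Q B w) hQ (hG.and (leafy_hit hQ B)) (h2 w)

theorem count_joint (hQ : IsTree Q) (hθ : Function.Bijective θ) (h1 : ∀ w v, v ∉ B → π w v = w v)
    (h2 : ∀ w v, v ∉ A → π (θ w) v = w v) :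
    cnt (fun w => Joint Q A B (π w)) = cnt (Joint Q A B) := by
  have h := count_parts hQ hθ h1 h2 (leafy_true Q)
  have e1 := cnt_split (fun _ : V → Bool => True) (fun w => Joint Q A B (π w))
  have e2 := cnt_split (fun _ : V → Bool => True) (fun w => Joint Q A B w)
  simp only [true_and] at e1 e2 h
  have : cnt (fun w => Joint Q A B w) = cnt (Joint Q A B) := rfl
  omega

theorem count_leafy (hQ : IsTree Q) (hθ : Function.Bijective θ) (h1 : ∀ w v, v ∉ B → π w v = w v)
    (h2 : ∀ w v, v ∉ A → π (θ w) v = w v) {G : (V → Bool) → Prop} (hG : Leafy Q G) :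
    cnt (fun w => G (π w)) ≤ cnt G + cnt (Joint Q A B) := by
  have h := count_parts hQ hθ h1 h2 hG
  have hj := count_joint hQ hθ h1 h2
  have e1 := cnt_split (fun w => G (π w)) (fun w => Joint Q A B (π w))
  have e2 : cnt (fun w => G (π w) ∧ Joint Q A B (π w)) ≤ cnt (fun w => Joint Q A B (π w)) :=
    cnt_mono fun w hw => hw.2
  have e3 : cnt (fun w => G w ∧ ¬ Joint Q A B w) ≤ cnt G := cnt_mono fun w hw => hw.1
  omega

theorem count_leafy' (hQ : IsTree Q) (hθ : Function.Bijective θ) (h1 : ∀ w v, v ∉ B → π w v = w v)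
    (h2 : ∀ w v, v ∉ A → π (θ w) v = w v) {G : (V → Bool) → Prop} (hG : Leafy Q G) :
    cnt G ≤ cnt (fun w => G (π w)) + cnt (Joint Q A B) := by
  have h := count_parts hQ hθ h1 h2 hG
  have e1 := cnt_split G (fun w => Joint Q A B w)
  have e2 : cnt (fun w => G w ∧ Joint Q A B w) ≤ cnt (Joint Q A B) :=
    cnt_mono fun w hw => hw.2
  have e3 : cnt (fun w => G (π w) ∧ ¬ Joint Q A B (π w)) ≤ cnt (fun w => G (π w)) :=
    cnt_mono fun w hw => hw.1
  omega

end pair

section family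

variable {S : ℕ} {Q : Fin S → (V → Bool) → Finset V} {T : Fin S → (V → Bool) → Prop}
  {A B : Finset V} {π θ : (V → Bool) → (V → Bool)}

/-- `s` is the first tree which accepts. -/
def First (T : Fin S → (V → Bool) → Prop) (w : V → Bool) (s : Fin S) : Prop :=
  T s w ∧ ∀ s' < s, ¬ T s' w

theorem exists_first {w : V → Bool} (h : ∃ s, T s w) : ∃ s, First T w s := by
  obtain ⟨s, hs, hmin⟩ := WellFounded.has_min (wellFounded_lt (α := Fin S)) {s | T s w} h
  exact ⟨s, hs, fun s' hlt ht => hmin s' ht hlt⟩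

theorem first_unique {w : V → Bool} {s s' : Fin S} (h : First T w s) (h' : First T w s') : s = s' := by
  rcases lt_trichotomy s s' with hlt | heq | hlt
  · exact absurd h.1 (h'.2 s hlt)
  · exact heq
  · exact absurd h'.1 (h.2 s' hlt)

/-- The first accepting tree queries `A`. -/
def FirstHit (Q : Fin S → (V → Bool) → Finset V) (T : Fin S → (V → Bool) → Prop) (A : Finset V)
    (w : V → Bool) : Prop := ∃ s, First T w s ∧ Hit (Q s) A w

theorem or_lower (hQ : ∀ s, IsTree (Q s)) (hT : ∀ s, Leafy (Q s) (T s))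
    (h1 : ∀ w v, v ∉ B → π w v = w v) :
    cnt (fun w => ∃ s, T s w) ≤ cnt (fun w => ∃ s, T s (π w)) + cnt (FirstHit Q T B) := by
  apply cnt_or
  intro w hw
  obtain ⟨s, hs⟩ := exists_first hw
  by_cases hB : Hit (Q s) B w
  · exact Or.inr ⟨s, hs, hB⟩
  · exact Or.inl ⟨s, ((change_iff (hQ s) (hT s) (h1 w)).2 ⟨hs.1, hB⟩).1⟩

theorem or_upper (hQ : ∀ s, IsTree (Q s)) (hT : ∀ s, Leafy (Q s) (T s))
    (hθ : Function.Bijective θ) (h1 : ∀ w v, v ∉ B → π w v = w v)
    (h2 : ∀ w v, v ∉ A → π (θ w) v = w v) :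
    cnt (fun w => ∃ s, T s (π w)) ≤ cnt (fun w => ∃ s, T s w) + cnt (FirstHit Q T A) +
      cnt (FirstHit Q T B) + ∑ s, cnt (Joint (Q s) A B) := by
  have hA : cnt (fun w => ∃ s, T s (π w)) ≤ cnt (fun w => ∃ s, T s w) +
      cnt (fun w => (∃ s, First T (π w) s ∧ Hit (Q s) B (π w))) := by
    apply cnt_or
    intro w hw
    obtain ⟨s, hs⟩ := exists_first hw
    by_cases hB : Hit (Q s) B (π w)
    · exact Or.inr ⟨s, hs, hB⟩
    · exact Or.inl ⟨s, ((change_iff (hQ s) (hT s) (h1 w)).1 ⟨hs.1, hB⟩).1⟩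
  have hB : cnt (fun w => (∃ s, First T (π w) s ∧ Hit (Q s) B (π w))) ≤
      cnt (fun w => ∃ s, (First T (π w) s ∧ Hit (Q s) B (π w)) ∧ ¬ Hit (Q s) A (π w)) +
      cnt (fun w => ∃ s, Joint (Q s) A B (π w)) := by
    apply cnt_or
    rintro w ⟨s, hs⟩
    by_cases hA' : Hit (Q s) A (π w)
    · exact Or.inr ⟨s, hA', hs.2⟩
    · exact Or.inl ⟨s, hs, hA'⟩
  have hC : cnt (fun w => ∃ s, Joint (Q s) A B (π w)) ≤ ∑ s, cnt (Joint (Q s) A B) := by
    refine le_trans (cnt_exists (fun s w => Joint (Q s) A B (π w))) (sum_le_sum fun s _ => ?_)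
    exact (count_joint (hQ s) hθ h1 h2).le
  have hD : cnt (fun w => ∃ s, (First T (π w) s ∧ Hit (Q s) B (π w)) ∧ ¬ Hit (Q s) A (π w)) ≤
      cnt (FirstHit Q T A) + cnt (FirstHit Q T B) := by
    rw [← cnt_bij (fun w => ∃ s, (First T (π w) s ∧ Hit (Q s) B (π w)) ∧ ¬ Hit (Q s) A (π w)) hθ]
    apply cnt_or
    rintro w ⟨s, ⟨hs, hBs⟩, hAs⟩
    have hl : Leafy (Q s) (fun w => T s w ∧ Hit (Q s) B w) := (hT s).and (leafy_hit (hQ s) B)
    obtain ⟨⟨hTw, hBw⟩, _⟩ := (change_iff (hQ s) hl (h2 w)).1 ⟨⟨hs.1, hBs⟩, hAs⟩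
    obtain ⟨s', hs'⟩ := exists_first (T := T) (w := w) ⟨s, hTw⟩
    rcases lt_trichotomy s' s with hlt | heq | hlt
    · by_cases hA' : Hit (Q s') A w
      · exact Or.inl ⟨s', hs', hA'⟩
      · have := ((change_iff (hQ s') (hT s') (h2 w)).2 ⟨hs'.1, hA'⟩).1
        exact absurd this (hs.2 s' hlt)
    · subst heq
      exact Or.inr ⟨s', hs', hBw⟩
    · exact absurd hTw (hs'.2 s hlt)
  omega

/-- The disjunction of functions `F s` which are decided by the trees outside of `O s`. -/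
theorem or_diff {F O : Fin S → (V → Bool) → Prop} (hQ : ∀ s, IsTree (Q s))
    (hO : ∀ s, Leafy (Q s) (O s)) (hF : ∀ s, Leafy (Q s) (fun w => F s w ∧ ¬ O s w))
    (hθ : Function.Bijective θ) (h1 : ∀ w v, v ∉ B → π w v = w v)
    (h2 : ∀ w v, v ∉ A → π (θ w) v = w v) :
    |(cnt (fun w => ∃ s, F s (π w)) : ℝ) - cnt (fun w => ∃ s, F s w)| ≤
      cnt (FirstHit Q (fun s w => F s w ∧ ¬ O s w) A) +
      cnt (FirstHit Q (fun s w => F s w ∧ ¬ O s w) B) + 2 * ∑ s, (cnt (Joint (Q s) A B) : ℝ) +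
      ∑ s, (cnt (O s) : ℝ) := by
  have hlow := or_lower (T := fun s w => F s w ∧ ¬ O s w) hQ hF h1
  have hup := or_upper (T := fun s w => F s w ∧ ¬ O s w) hQ hF hθ h1 h2
  have e1 : cnt (fun w => ∃ s, F s w) ≤ cnt (fun w => ∃ s, F s w ∧ ¬ O s w) + ∑ s, cnt (O s) := by
    refine le_trans (cnt_or (R := fun w => ∃ s, F s w ∧ ¬ O s w) (Z := fun w => ∃ s, O s w) ?_) ?_
    · rintro w ⟨s, hs⟩
      by_cases h : O s w
      · exact Or.inr ⟨s, h⟩
      · exact Or.inl ⟨s, hs, h⟩
    · exact Nat.add_le_add_left (cnt_exists _) _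
  have e2 : cnt (fun w => ∃ s, F s (π w)) ≤ cnt (fun w => ∃ s, F s (π w) ∧ ¬ O s (π w)) +
      ∑ s, (cnt (O s) + cnt (Joint (Q s) A B)) := by
    refine le_trans (cnt_or (R := fun w => ∃ s, F s (π w) ∧ ¬ O s (π w))
      (Z := fun w => ∃ s, O s (π w)) ?_) ?_
    · rintro w ⟨s, hs⟩
      by_cases h : O s (π w)
      · exact Or.inr ⟨s, h⟩
      · exact Or.inl ⟨s, hs, h⟩
    · apply Nat.add_le_add_left
      refine le_trans (cnt_exists (fun s w => O s (π w))) (sum_le_sum fun s _ => ?_)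
      exact count_leafy (hQ s) hθ h1 h2 (hO s)
  have e3 : cnt (fun w => ∃ s, F s w ∧ ¬ O s w) ≤ cnt (fun w => ∃ s, F s w) :=
    cnt_mono fun w ⟨s, hs⟩ => ⟨s, hs.1⟩
  have e4 : cnt (fun w => ∃ s, F s (π w) ∧ ¬ O s (π w)) ≤ cnt (fun w => ∃ s, F s (π w)) :=
    cnt_mono fun w ⟨s, hs⟩ => ⟨s, hs.1⟩
  rw [sum_add_distrib] at e2
  have e5 : (0 : ℝ) ≤ ∑ s, (cnt (Joint (Q s) A B) : ℝ) := sum_nonneg fun s _ => Nat.cast_nonneg _
  have e6 : (0 : ℝ) ≤ ∑ s, (cnt (O s) : ℝ) := sum_nonneg fun s _ => Nat.cast_nonneg _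
  have e7 : (0 : ℝ) ≤ cnt (FirstHit Q (fun s w => F s w ∧ ¬ O s w) A) := Nat.cast_nonneg _
  rify at hlow hup e1 e2 e3 e4
  rw [abs_le]
  constructor <;> linarith

end family

section sums

variable {R : Type*} [Fintype R] [DecidableEq R] {row : V → R}

/-- The variables of a row. -/
def rowSet (row : V → R) (r : R) : Finset V := univ.filter fun v => row v = r

theorem sum_cnt {α ι : Type*} [Fintype α] (I : Finset ι) (P : ι → α → Prop) :
    ∑ i ∈ I, cnt (P i) = ∑ a, (I.filter fun i => P i a).card := by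
  simp only [cnt, card_filter]
  exact sum_comm

theorem card_hit_le (Q : (V → Bool) → Finset V) (w : V → Bool) (I : Finset R) :
    (I.filter fun r => Hit Q (rowSet row r) w).card ≤ (Q w).card := by
  refine le_trans (card_le_card ?_) (card_image_le (s := Q w) (f := row))
  intro r hr
  simp only [mem_filter, Hit, rowSet, mem_univ, true_and] at hr
  obtain ⟨_, v, hv, hvr⟩ := hr
  exact mem_image.2 ⟨v, hv, hvr⟩

theorem sum_joint {Q : (V → Bool) → Finset V} {L : ℕ} (hL : ∀ w, (Q w).card ≤ L) (I J : Finset R) :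
    ∑ i ∈ I, ∑ j ∈ J, cnt (Joint Q (rowSet row i) (rowSet row j)) ≤
      Fintype.card (V → Bool) * L ^ 2 := by
  have h1 : ∑ i ∈ I, ∑ j ∈ J, cnt (Joint Q (rowSet row i) (rowSet row j)) =
      ∑ w, (I.filter fun i => Hit Q (rowSet row i) w).card *
        (J.filter fun j => Hit Q (rowSet row j) w).card := by
    have e1 : ∀ i ∈ I, ∑ j ∈ J, cnt (Joint Q (rowSet row i) (rowSet row j)) =
        ∑ w, (J.filter fun j => Joint Q (rowSet row i) (rowSet row j) w).card :=
      fun i _ => sum_cnt J _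
    rw [sum_congr rfl e1, sum_comm]
    apply sum_congr rfl
    intro w _
    have e2 : ∀ i ∈ I, (J.filter fun j => Joint Q (rowSet row i) (rowSet row j) w).card =
        if Hit Q (rowSet row i) w then (J.filter fun j => Hit Q (rowSet row j) w).card else 0 := by
      intro i _
      split_ifs with h
      · congr 1
        apply filter_congr
        intro j _
        exact ⟨fun hj => hj.2, fun hj => ⟨h, hj⟩⟩
      · rw [card_eq_zero, filter_eq_empty_iff]
        intro j _ hj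
        exact h hj.1
    rw [sum_congr rfl e2, ← sum_filter, sum_const, smul_eq_mul]
  rw [h1]
  refine le_trans (sum_le_sum (g := fun _ => L ^ 2) fun w _ => ?_) ?_
  · rw [pow_two]
    exact Nat.mul_le_mul (le_trans (card_hit_le Q w I) (hL w)) (le_trans (card_hit_le Q w J) (hL w))
  · rw [sum_const, card_univ, smul_eq_mul]

theorem sum_firstHit {S : ℕ} {Q : Fin S → (V → Bool) → Finset V} {T : Fin S → (V → Bool) → Prop}
    {L : ℕ} (hL : ∀ s w, (Q s w).card ≤ L) (I : Finset R) :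
    ∑ i ∈ I, cnt (FirstHit Q T (rowSet row i)) ≤ Fintype.card (V → Bool) * L := by
  rw [sum_cnt]
  refine le_trans (sum_le_sum (g := fun _ => L) fun w _ => ?_) ?_
  · by_cases h : ∃ s, T s w
    · obtain ⟨s, hs⟩ := exists_first h
      refine le_trans (card_le_card ?_) (le_trans (card_hit_le (row := row) (Q s) w I) (hL s w))
      intro i hi
      simp only [mem_filter] at hi ⊢
      obtain ⟨hi1, s', hs', hit⟩ := hi
      rw [first_unique hs' hs] at hit
      exact ⟨hi1, hit⟩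
    · rw [filter_eq_empty_iff.2]
      · simp
      · rintro i _ ⟨s, hs, _⟩
        exact h ⟨s, hs.1⟩
  · rw [sum_const, card_univ, smul_eq_mul]

theorem sum_or_diff {S : ℕ} {Q : Fin S → (V → Bool) → Finset V} {F O : Fin S → (V → Bool) → Prop}
    {L : ℕ} (hQ : ∀ s, IsTree (Q s)) (hO : ∀ s, Leafy (Q s) (O s))
    (hF : ∀ s, Leafy (Q s) (fun w => F s w ∧ ¬ O s w)) (hL : ∀ s w, (Q s w).card ≤ L)
    (I J : Finset R) {π θ : R → R → (V → Bool) → (V → Bool)}
    (hθ : ∀ i ∈ I, ∀ j ∈ J, Function.Bijective (θ i j))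
    (h1 : ∀ i ∈ I, ∀ j ∈ J, ∀ w v, v ∉ rowSet row j → π i j w v = w v)
    (h2 : ∀ i ∈ I, ∀ j ∈ J, ∀ w v, v ∉ rowSet row i → π i j (θ i j w) v = w v) :
    ∑ i ∈ I, ∑ j ∈ J, |(cnt (fun w => ∃ s, F s (π i j w)) : ℝ) - cnt (fun w => ∃ s, F s w)| ≤
      Fintype.card (V → Bool) * (2 * S * (L : ℝ) ^ 2 + ((I.card : ℝ) + J.card) * L) +
      (I.card : ℝ) * J.card * ∑ s, (cnt (O s) : ℝ) := by
  set T : Fin S → (V → Bool) → Prop := fun s w => F s w ∧ ¬ O s w with hT
  have key : ∑ i ∈ I, ∑ j ∈ J,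
      |(cnt (fun w => ∃ s, F s (π i j w)) : ℝ) - cnt (fun w => ∃ s, F s w)| ≤
      ∑ i ∈ I, ∑ j ∈ J, ((cnt (FirstHit Q T (rowSet row i)) : ℝ) +
        cnt (FirstHit Q T (rowSet row j)) +
        2 * ∑ s, (cnt (Joint (Q s) (rowSet row i) (rowSet row j)) : ℝ) + ∑ s, (cnt (O s) : ℝ)) := by
    apply sum_le_sum
    intro i hi
    apply sum_le_sum
    intro j hj
    exact or_diff hQ hO hF (hθ i hi j hj) (h1 i hi j hj) (h2 i hi j hj)
  refine le_trans key ?_
  simp only [sum_add_distrib, sum_const, nsmul_eq_mul]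
  have a1 : ∑ i ∈ I, (J.card : ℝ) * (cnt (FirstHit Q T (rowSet row i)) : ℝ) ≤
      J.card * (Fintype.card (V → Bool) * L) := by
    rw [← mul_sum]
    apply mul_le_mul_of_nonneg_left _ (Nat.cast_nonneg _)
    exact_mod_cast sum_firstHit (T := T) hL I
  have a2 : (I.card : ℝ) * ∑ j ∈ J, (cnt (FirstHit Q T (rowSet row j)) : ℝ) ≤
      I.card * (Fintype.card (V → Bool) * L) := by
    apply mul_le_mul_of_nonneg_left _ (Nat.cast_nonneg _)
    exact_mod_cast sum_firstHit (T := T) hL J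
  have a3 : ∑ i ∈ I, ∑ j ∈ J,
      2 * ∑ s, (cnt (Joint (Q s) (rowSet row i) (rowSet row j)) : ℝ) ≤
      2 * (S * (Fintype.card (V → Bool) * (L : ℝ) ^ 2)) := by
    simp only [← mul_sum]
    apply mul_le_mul_of_nonneg_left _ (by norm_num)
    have e : ∑ i ∈ I, ∑ j ∈ J, ∑ s, (cnt (Joint (Q s) (rowSet row i) (rowSet row j)) : ℝ) =
        ∑ s, ∑ i ∈ I, ∑ j ∈ J, (cnt (Joint (Q s) (rowSet row i) (rowSet row j)) : ℝ) := by
      rw [sum_comm]
      simp only [sum_comm (s := I)]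
      rw [sum_comm]
    rw [e]
    calc ∑ s, ∑ i ∈ I, ∑ j ∈ J, (cnt (Joint (Q s) (rowSet row i) (rowSet row j)) : ℝ)
        ≤ ∑ _s : Fin S, (Fintype.card (V → Bool) * (L : ℝ) ^ 2) := by
          apply sum_le_sum
          intro s _
          exact_mod_cast sum_joint (hL s) I J
      _ = S * (Fintype.card (V → Bool) * (L : ℝ) ^ 2) := by
          rw [sum_const, card_univ, Fintype.card_fin, nsmul_eq_mul]
  have e4 : (I.card : ℝ) * ((J.card : ℝ) * ∑ s, (cnt (O s) : ℝ)) =
    (I.card : ℝ) * J.card * ∑ s, (cnt (O s) : ℝ) := by ring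
  nlinarith [a1, a2, a3]

end sums

end Pool.Agent.V8H16.OV
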