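import Mathlib
import Pool.Agent.V8H16.OV.Tree

/-!
# Decision trees for formulas in conjunctive normal form with short clauses

If a formula has `N` clauses without common variables then it is unlikely that they are all
satisfied. Otherwise the variables of a maximal family of clauses without common variables meet all
clauses; a tree queries them, and continues with the rest, whose clauses are shorter.
-/

set_option autoImplicit false
set_option linter.unusedSectionVars false

open Finset Classical

namespace Pool.Agent.V8H16.OV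

variable {V : Type*} [Fintype V] [DecidableEq V]

/-- `w` satisfies the clause `c`. -/
def Sat (w : V → Bool) (c : Finset (V × Bool)) : Prop := ∃ l ∈ c, w l.1 = l.2

/-- The variables of a clause. -/
noncomputable def vars (c : Finset (V × Bool)) : Finset V := c.image Prod.fst

/-- The clause contains a variable and its negation. -/
def Taut (c : Finset (V × Bool)) : Prop := ∃ v, (v, true) ∈ c ∧ (v, false) ∈ c

theorem mem_vars {c : Finset (V × Bool)} {l : V × Bool} (h : l ∈ c) : l.1 ∈ vars c :=
  mem_image_of_mem _ h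

theorem sat_congr {c : Finset (V × Bool)} {w w' : V → Bool} (h : ∀ v ∈ vars c, w v = w' v) :
    Sat w c ↔ Sat w' c := by
  constructor
  · rintro ⟨l, hl, e⟩
    exact ⟨l, hl, by rw [← h _ (mem_vars hl)]; exact e⟩
  · rintro ⟨l, hl, e⟩
    exact ⟨l, hl, by rw [h _ (mem_vars hl)]; exact e⟩

theorem cnt_prod {α β : Type*} [Fintype α] [Fintype β] (P : α → β → Prop) :
    cnt (fun p : α × β => P p.1 p.2) = ∑ a, cnt (P a) := by
  simp only [cnt, card_filter, Fintype.sum_prod_type]

/-- `w` on `H` and `u` elsewhere. -/
noncomputable def merge (H : Finset V) (w u : V → Bool) : V → Bool :=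
  fun v => if v ∈ H then w v else u v

theorem merge_bij (H : Finset V) :
    Function.Bijective (fun p : (V → Bool) × (V → Bool) => (merge H p.1 p.2, merge H p.2 p.1)) := by
  apply Function.Involutive.bijective
  rintro ⟨w, u⟩
  simp only [Prod.mk.injEq]
  constructor <;> funext v <;> by_cases h : v ∈ H <;> simp [merge, h]

/-- If `P` depends only on the part of the first argument in `H` and on the part of the second
argument outside of `H`, then both arguments can be equal. -/
theorem diag (H : Finset V) (P : (V → Bool) → (V → Bool) → Prop)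
    (h1 : ∀ w w' u, (∀ v ∈ H, w v = w' v) → (P w u ↔ P w' u))
    (h2 : ∀ w u u', (∀ v, v ∉ H → u v = u' v) → (P w u ↔ P w u')) :
    Fintype.card (V → Bool) * cnt (fun w => P w w) = ∑ w, cnt (P w) := by
  rw [← cnt_prod]
  have e1 : cnt (fun p : (V → Bool) × (V → Bool) => P p.1 p.2) =
      cnt (fun p : (V → Bool) × (V → Bool) => P (merge H p.1 p.2) (merge H p.1 p.2)) := by
    apply cnt_congr
    rintro ⟨w, u⟩
    rw [h1 (merge H w u) w _ (fun v hv => by simp [merge, hv]),
      h2 w (merge H w u) u (fun v hv => by simp [merge, hv])]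
  have e2 : cnt (fun p : (V → Bool) × (V → Bool) => P (merge H p.1 p.2) (merge H p.1 p.2)) =
      cnt (fun p : (V → Bool) × (V → Bool) => P p.1 p.1) :=
    cnt_bij (fun p : (V → Bool) × (V → Bool) => P p.1 p.1) (merge_bij H)
  rw [e1, e2, cnt_prod (fun w _ => P w w)]
  have e3 : ∀ w : V → Bool, cnt (fun _ : V → Bool => P w w) =
      if P w w then Fintype.card (V → Bool) else 0 := by
    intro w
    unfold cnt
    split_ifs with h <;> simp [h]
  simp only [e3]
  rw [← sum_filter, sum_const, smul_eq_mul, mul_comm]
  rfl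

theorem cnt_eq_zero {α : Type*} [Fintype α] {P : α → Prop} (h : ∀ a, ¬ P a) : cnt P = 0 := by
  unfold cnt
  rw [card_eq_zero, filter_eq_empty_iff]
  intro a _ ha
  exact h a ha

theorem cnt_not {α : Type*} [Fintype α] (P : α → Prop) :
    cnt P + cnt (fun a => ¬ P a) = Fintype.card α := by
  have h := cnt_split (fun _ : α => True) P
  simp only [true_and] at h
  have h2 : cnt (fun _ : α => True) = Fintype.card α := by simp [cnt, card_univ]
  have h3 : cnt (fun a => P a) = cnt P := rfl
  omega

/-- A clause with at most `K` literals is violated with probability at least `2 ^ (-K)`. -/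
theorem clause_bound {c : Finset (V × Bool)} {K : ℕ} (hc : ¬ Taut c) (hK : c.card ≤ K) :
    (cnt (fun w => Sat w c) : ℝ) ≤ (1 - (1 / 2) ^ K) * Fintype.card (V → Bool) := by
  have h1 : Fintype.card (V → Bool) ≤ cnt (fun w => ¬ Sat w c) * 2 ^ K := by
    let ovr : (V → Bool) → (V → Bool) := fun w v =>
      if (v, true) ∈ c then false else if (v, false) ∈ c then true else w v
    have hover : ∀ w, ¬ Sat (ovr w) c := by
      rintro w ⟨⟨v, b⟩, hl, e⟩
      simp only [ovr] at e
      cases b with
      | true => simp [hl] at e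
      | false =>
        have hnt : (v, true) ∉ c := fun h => hc ⟨v, h, hl⟩
        simp [hl, hnt] at e
    let f : (V → Bool) → {w : V → Bool // ¬ Sat w c} × (c → Bool) := fun w =>
      (⟨ovr w, hover w⟩, fun l => w l.1.1)
    have hf : Function.Injective f := by
      intro w w' h
      simp only [f, Prod.mk.injEq, Subtype.mk.injEq] at h
      obtain ⟨ha, hb⟩ := h
      funext v
      by_cases hv : ∃ b, (v, b) ∈ c
      · obtain ⟨b, hb'⟩ := hv
        exact congrFun hb ⟨(v, b), hb'⟩
      · have hv1 : (v, true) ∉ c := fun h => hv ⟨_, h⟩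
        have hv2 : (v, false) ∉ c := fun h => hv ⟨_, h⟩
        have := congrFun ha v
        simpa [ovr, hv1, hv2] using this
    have hcard := Fintype.card_le_of_injective f hf
    rw [Fintype.card_prod, Fintype.card_subtype] at hcard
    have h2 : Fintype.card (c → Bool) ≤ 2 ^ K := by
      rw [Fintype.card_fun, Fintype.card_bool, Fintype.card_coe]
      exact Nat.pow_le_pow_right (by norm_num) hK
    calc Fintype.card (V → Bool) ≤ _ := hcard
      _ ≤ _ := Nat.mul_le_mul (le_of_eq (by unfold cnt; congr)) h2
  have h2 := cnt_not (fun w : V → Bool => Sat w c)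
  have h3 : (Fintype.card (V → Bool) : ℝ) ≤ cnt (fun w => ¬ Sat w c) * 2 ^ K := by exact_mod_cast h1
  have h4 : (cnt (fun w => Sat w c) : ℝ) + cnt (fun w => ¬ Sat w c) = Fintype.card (V → Bool) := by
    exact_mod_cast h2
  have h5 : (1 / 2 : ℝ) ^ K * Fintype.card (V → Bool) ≤ cnt (fun w => ¬ Sat w c) := by
    have h6 : (1 / 2 : ℝ) ^ K * Fintype.card (V → Bool) ≤
        (1 / 2 : ℝ) ^ K * (cnt (fun w => ¬ Sat w c) * 2 ^ K) :=
      mul_le_mul_of_nonneg_left h3 (by positivity)
    have h7 : (1 / 2 : ℝ) ^ K * (cnt (fun w => ¬ Sat w c) * 2 ^ K) = cnt (fun w => ¬ Sat w c) := by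
      rw [mul_comm, mul_assoc, ← mul_pow]
      norm_num
    linarith
  linarith

theorem card_pos' : (0 : ℝ) < Fintype.card (V → Bool) := by
  have : 0 < Fintype.card (V → Bool) := Fintype.card_pos
  exact_mod_cast this

/-- Clauses without common variables are independent. -/
theorem disjoint_bound {ι : Type*} {cl : ι → Finset (V × Bool)} {K : ℕ} (T : Finset ι)
    (hd : ∀ t ∈ T, ∀ t' ∈ T, t ≠ t' → Disjoint (vars (cl t)) (vars (cl t')))
    (hc : ∀ t ∈ T, ¬ Taut (cl t) ∧ (cl t).card ≤ K) :
    (cnt (fun w => ∀ t ∈ T, Sat w (cl t)) : ℝ) ≤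
      (1 - (1 / 2) ^ K) ^ T.card * Fintype.card (V → Bool) := by
  induction T using Finset.induction_on with
  | empty =>
    simp only [notMem_empty, false_imp_iff, implies_true, card_empty, pow_zero, one_mul]
    exact_mod_cast cnt_le_card _
  | insert a T ha ih =>
    have ih' := ih (fun t ht t' ht' => hd t (mem_insert_of_mem ht) t' (mem_insert_of_mem ht'))
      (fun t ht => hc t (mem_insert_of_mem ht))
    have hq : (0 : ℝ) ≤ 1 - (1 / 2) ^ K := by
      have : (1 / 2 : ℝ) ^ K ≤ 1 := pow_le_one₀ (by norm_num) (by norm_num)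
      linarith
    have e := diag (vars (cl a)) (fun w u => Sat w (cl a) ∧ ∀ t ∈ T, Sat u (cl t))
      (fun w w' u h => by rw [sat_congr h])
      (fun w u u' h => by
        have : ∀ t ∈ T, (Sat u (cl t) ↔ Sat u' (cl t)) := by
          intro t ht
          apply sat_congr
          intro v hv
          apply h
          intro hva
          have hne : a ≠ t := fun hat => ha (hat ▸ ht)
          exact (disjoint_left.1 (hd a (mem_insert_self _ _) t (mem_insert_of_mem ht) hne)) hva hv
        constructor
        · rintro ⟨h1, h2⟩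
          exact ⟨h1, fun t ht => (this t ht).1 (h2 t ht)⟩
        · rintro ⟨h1, h2⟩
          exact ⟨h1, fun t ht => (this t ht).2 (h2 t ht)⟩)
    have e2 : ∀ w, cnt (fun u => Sat w (cl a) ∧ ∀ t ∈ T, Sat u (cl t)) =
        if Sat w (cl a) then cnt (fun u => ∀ t ∈ T, Sat u (cl t)) else 0 := by
      intro w
      split_ifs with h
      · exact cnt_congr fun u => ⟨fun hu => hu.2, fun hu => ⟨h, hu⟩⟩
      · exact cnt_eq_zero fun u hu => h hu.1
    have e3 : ∑ w, cnt (fun u => Sat w (cl a) ∧ ∀ t ∈ T, Sat u (cl t)) =
        cnt (fun w => Sat w (cl a)) * cnt (fun u => ∀ t ∈ T, Sat u (cl t)) := by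
      rw [sum_congr rfl fun w _ => e2 w, ← sum_filter, sum_const, smul_eq_mul]
      rfl
    have e4 : cnt (fun w => ∀ t ∈ insert a T, Sat w (cl t)) =
        cnt (fun w => Sat w (cl a) ∧ ∀ t ∈ T, Sat w (cl t)) := by
      apply cnt_congr
      intro w
      constructor
      · intro h
        exact ⟨h a (mem_insert_self _ _), fun t ht => h t (mem_insert_of_mem ht)⟩
      · rintro ⟨h1, h2⟩ t ht
        rcases mem_insert.1 ht with rfl | ht
        · exact h1
        · exact h2 t ht
    rw [e4, card_insert_of_notMem ha, pow_succ]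
    have hb := clause_bound (hc a (mem_insert_self _ _)).1 (hc a (mem_insert_self _ _)).2
    have e5 : (Fintype.card (V → Bool) : ℝ) *
        cnt (fun w => Sat w (cl a) ∧ ∀ t ∈ T, Sat w (cl t)) =
        cnt (fun w => Sat w (cl a)) * cnt (fun u => ∀ t ∈ T, Sat u (cl t)) := by
      have := e.trans e3
      exact_mod_cast this
    have hpos := card_pos' (V := V)
    have e6 : (Fintype.card (V → Bool) : ℝ) *
        cnt (fun w => Sat w (cl a) ∧ ∀ t ∈ T, Sat w (cl t)) ≤ Fintype.card (V → Bool) *
        ((1 - (1 / 2) ^ K) ^ T.card * (1 - (1 / 2) ^ K) * Fintype.card (V → Bool)) := by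
      rw [e5]
      calc _ ≤ ((1 - (1 / 2) ^ K) * Fintype.card (V → Bool) : ℝ) *
          ((1 - (1 / 2) ^ K) ^ T.card * Fintype.card (V → Bool)) :=
            mul_le_mul hb ih' (Nat.cast_nonneg _) (by positivity)
        _ = _ := by ring
    exact le_of_mul_le_mul_left e6 hpos

/-- The rest of the formula when the variables in `H` have the values of `w`. -/
noncomputable def rest (C : Finset (Finset (V × Bool))) (H : Finset V) (w : V → Bool) :
    Finset (Finset (V × Bool)) :=
  (C.filter fun c => ¬ ∃ l ∈ c, l.1 ∈ H ∧ w l.1 = l.2).image fun c => c.filter fun l => l.1 ∉ H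

theorem rest_congr {C : Finset (Finset (V × Bool))} {H : Finset V} {w w' : V → Bool}
    (h : ∀ v ∈ H, w v = w' v) : rest C H w = rest C H w' := by
  unfold rest
  congr 1
  apply filter_congr
  intro c _
  apply not_congr
  constructor
  · rintro ⟨l, hl, hH, e⟩
    exact ⟨l, hl, hH, by rw [← h _ hH]; exact e⟩
  · rintro ⟨l, hl, hH, e⟩
    exact ⟨l, hl, hH, by rw [h _ hH]; exact e⟩

theorem rest_sat {C : Finset (Finset (V × Bool))} {H : Finset V} {w : V → Bool} :
    (∀ c ∈ rest C H w, Sat w c) ↔ ∀ c ∈ C, Sat w c := by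
  constructor
  · intro h c hc
    by_cases hex : ∃ l ∈ c, l.1 ∈ H ∧ w l.1 = l.2
    · obtain ⟨l, hl, _, e⟩ := hex
      exact ⟨l, hl, e⟩
    · obtain ⟨l, hl, e⟩ := h _ (mem_image_of_mem _ (mem_filter.2 ⟨hc, hex⟩))
      exact ⟨l, (mem_filter.1 hl).1, e⟩
  · intro h c' hc'
    obtain ⟨c, hc, rfl⟩ := mem_image.1 hc'
    obtain ⟨hcC, hex⟩ := mem_filter.1 hc
    obtain ⟨l, hl, e⟩ := h c hcC
    refine ⟨l, mem_filter.2 ⟨hl, fun hH => hex ⟨l, hl, hH, e⟩⟩, e⟩

theorem rest_vars {C : Finset (Finset (V × Bool))} {H : Finset V} {w : V → Bool} {v : V}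
    (hv : v ∈ (rest C H w).biUnion vars) : v ∉ H ∧ v ∈ C.biUnion vars := by
  obtain ⟨c', hc', hv⟩ := mem_biUnion.1 hv
  obtain ⟨c, hc, rfl⟩ := mem_image.1 hc'
  obtain ⟨l, hl, rfl⟩ := mem_image.1 hv
  obtain ⟨hl1, hl2⟩ := mem_filter.1 hl
  exact ⟨hl2, mem_biUnion.2 ⟨c, (mem_filter.1 hc).1, mem_vars hl1⟩⟩

/-- Formulas with short clauses have decision trees of small depth, which fail with small
probability. -/
theorem exists_tree (K N : ℕ) : ∀ k, k ≤ K → ∀ C : Finset (Finset (V × Bool)),
    (∀ c ∈ C, c.card ≤ k ∧ ¬ Taut c) →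
    ∃ (Q : (V → Bool) → Finset V) (O : (V → Bool) → Prop), IsTree Q ∧ Leafy Q O ∧
      Leafy Q (fun w => (∀ c ∈ C, Sat w c) ∧ ¬ O w) ∧ (∀ w, (Q w).card ≤ k * K * N) ∧
      (∀ w, Q w ⊆ C.biUnion vars) ∧
      (cnt O : ℝ) ≤ (1 - (1 / 2) ^ K) ^ N * Fintype.card (V → Bool) := by
  have hq : (0 : ℝ) ≤ 1 - (1 / 2) ^ K := by
    have : (1 / 2 : ℝ) ^ K ≤ 1 := pow_le_one₀ (by norm_num) (by norm_num)
    linarith
  intro k
  induction k with
  | zero =>
    intro _ C hC
    refine ⟨fun _ => ∅, fun _ => False, fun _ _ _ => rfl, fun _ _ _ => Iff.rfl, ?_, ?_, ?_, ?_⟩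
    · intro w w' _
      have key : ∀ u u' : V → Bool, ((∀ c ∈ C, Sat u c) ∧ ¬ False) → ((∀ c ∈ C, Sat u' c) ∧ ¬ False) := by
        rintro u u' ⟨h, _⟩
        refine ⟨fun c hc => ?_, id⟩
        obtain ⟨l, hl, _⟩ := h c hc
        have := (hC c hc).1
        rw [Nat.le_zero, card_eq_zero] at this
        rw [this] at hl
        exact absurd hl (notMem_empty _)
      exact ⟨key w w', key w' w⟩
    · intro w
      simp
    · intro w
      exact empty_subset _
    · have : cnt (fun _ : V → Bool => False) = 0 := cnt_eq_zero fun _ h => h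
      rw [this, Nat.cast_zero]
      have := card_pos' (V := V)
      exact mul_nonneg (pow_nonneg hq _) this.le
  | succ k ih =>
    intro hk C hC
    have ih' := ih (by omega)
    choose! Q' O' hIH using ih'
    let good : Finset (Finset (V × Bool)) → Prop := fun D =>
      (∀ c ∈ D, ∀ c' ∈ D, c ≠ c' → Disjoint (vars c) (vars c')) ∧ D.card ≤ N
    have hne : (C.powerset.filter good).Nonempty :=
      ⟨∅, mem_filter.2 ⟨empty_mem_powerset _, by simp [good]⟩⟩
    obtain ⟨D, hD, hmax⟩ := exists_max_image (C.powerset.filter good) (fun D => D.card) hne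
    obtain ⟨hDC, hdis, hcard⟩ := mem_filter.1 hD
    rw [mem_powerset] at hDC
    have hHcard : (D.biUnion vars).card ≤ N * (k + 1) := by
      refine le_trans card_biUnion_le ?_
      calc ∑ c ∈ D, (vars c).card ≤ ∑ _c ∈ D, (k + 1) := by
            apply sum_le_sum
            intro c hc
            exact le_trans card_image_le (hC c (hDC hc)).1
        _ = D.card * (k + 1) := by rw [sum_const, smul_eq_mul]
        _ ≤ N * (k + 1) := Nat.mul_le_mul_right _ hcard
    rcases hcard.lt_or_eq with hlt | heq
    · -- the variables of `D` meet all clauses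
      set H := D.biUnion vars with hH
      have hmeet : ∀ c ∈ C, (c.filter fun l => l.1 ∉ H).card ≤ k := by
        intro c hc
        by_cases hcD : c ∈ D
        · rw [filter_eq_empty_iff.2]
          · simp
          · intro l hl
            rw [not_not]
            exact mem_biUnion.2 ⟨c, hcD, mem_vars hl⟩
        · have hex : ∃ c' ∈ D, ¬ Disjoint (vars c) (vars c') := by
            by_contra hno
            push Not at hno
            have hins : insert c D ∈ C.powerset.filter good := by
              refine mem_filter.2 ⟨mem_powerset.2 (insert_subset hc hDC), ?_, ?_⟩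
              · intro a ha b hb hab
                rcases mem_insert.1 ha with ha1 | ha1 <;> rcases mem_insert.1 hb with hb1 | hb1
                · exact absurd (ha1.trans hb1.symm) hab
                · rw [ha1]
                  exact hno b hb1
                · rw [hb1]
                  exact (hno a ha1).symm
                · exact hdis a ha1 b hb1 hab
              · rw [card_insert_of_notMem hcD]
                omega
            have := hmax _ hins
            rw [card_insert_of_notMem hcD] at this
            omega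
          obtain ⟨c', hc', hnd⟩ := hex
          rw [not_disjoint_iff] at hnd
          obtain ⟨v, hv1, hv2⟩ := hnd
          obtain ⟨l, hl, rfl⟩ := mem_image.1 hv1
          have hlt' : (c.filter fun l => l.1 ∉ H).card < c.card := by
            apply card_lt_card
            rw [filter_ssubset]
            refine ⟨l, hl, ?_⟩
            rw [not_not]
            exact mem_biUnion.2 ⟨c', hc', hv2⟩
          have := (hC c hc).1
          omega
      have hrest : ∀ w, ∀ c ∈ rest C H w, c.card ≤ k ∧ ¬ Taut c := by
        intro w c' hc'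
        obtain ⟨c, hc, rfl⟩ := mem_image.1 hc'
        have hcC := (mem_filter.1 hc).1
        refine ⟨hmeet c hcC, ?_⟩
        rintro ⟨v, h1, h2⟩
        exact (hC c hcC).2 ⟨v, (mem_filter.1 h1).1, (mem_filter.1 h2).1⟩
      refine ⟨fun w => H ∪ Q' (rest C H w) w, fun w => O' (rest C H w) w, ?_, ?_, ?_, ?_, ?_, ?_⟩
      · intro w w' h
        have hr : rest C H w = rest C H w' := rest_congr fun v hv => h v (mem_union_left _ hv)
        have := (hIH (rest C H w) (hrest w)).1 w w' (fun v hv => h v (mem_union_right _ hv))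
        show H ∪ Q' (rest C H w') w' = H ∪ Q' (rest C H w) w
        rw [← hr, this]
      · intro w w' h
        have hr : rest C H w = rest C H w' := rest_congr fun v hv => h v (mem_union_left _ hv)
        have := (hIH (rest C H w) (hrest w)).2.1 w w' (fun v hv => h v (mem_union_right _ hv))
        show O' (rest C H w) w ↔ O' (rest C H w') w'
        rw [← hr, this]
      · intro w w' h
        have hr : rest C H w = rest C H w' := rest_congr fun v hv => h v (mem_union_left _ hv)
        have := (hIH (rest C H w) (hrest w)).2.2.1 w w' (fun v hv => h v (mem_union_right _ hv))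
        show ((∀ c ∈ C, Sat w c) ∧ ¬ O' (rest C H w) w) ↔ ((∀ c ∈ C, Sat w' c) ∧ ¬ O' (rest C H w') w')
        rw [← rest_sat (H := H) (w := w), ← rest_sat (H := H) (w := w'), ← hr]
        exact this
      · intro w
        refine le_trans (card_union_le _ _) ?_
        have h1 := (hIH (rest C H w) (hrest w)).2.2.2.1 w
        have h2 : N * (k + 1) ≤ K * N := by rw [mul_comm]; exact Nat.mul_le_mul_right _ hk
        calc H.card + (Q' (rest C H w) w).card ≤ K * N + k * K * N := by omega
          _ = (k + 1) * K * N := by ring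
      · intro w
        apply union_subset
        · exact biUnion_subset_biUnion_of_subset_left _ hDC
        · intro v hv
          exact (rest_vars ((hIH (rest C H w) (hrest w)).2.2.2.2.1 w hv)).2
      · have e := diag H (fun w u => O' (rest C H w) u)
          (fun w w' u h => by rw [rest_congr (C := C) h])
          (fun w u u' h => by
            apply (hIH (rest C H w) (hrest w)).2.1
            intro v hv
            exact h v (rest_vars ((hIH (rest C H w) (hrest w)).2.2.2.2.1 u hv)).1)
        have e' : (Fintype.card (V → Bool) : ℝ) * cnt (fun w => O' (rest C H w) w) =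
            ∑ w, (cnt (O' (rest C H w)) : ℝ) := by exact_mod_cast e
        have hle : ∑ w, (cnt (O' (rest C H w)) : ℝ) ≤ Fintype.card (V → Bool) *
            ((1 - (1 / 2) ^ K) ^ N * Fintype.card (V → Bool)) := by
          calc ∑ w, (cnt (O' (rest C H w)) : ℝ) ≤
              ∑ _w : V → Bool, ((1 - (1 / 2) ^ K) ^ N * Fintype.card (V → Bool) : ℝ) :=
                sum_le_sum fun w _ => (hIH (rest C H w) (hrest w)).2.2.2.2.2
            _ = _ := by rw [sum_const, card_univ, nsmul_eq_mul]
        exact le_of_mul_le_mul_left (e'.trans_le hle) card_pos'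
    · -- `N` clauses without common variables
      refine ⟨fun _ => D.biUnion vars, fun w => ∀ c ∈ D, Sat w c, fun _ _ _ => rfl, ?_, ?_, ?_, ?_, ?_⟩
      · intro w w' h
        have : ∀ c ∈ D, (Sat w c ↔ Sat w' c) := fun c hc =>
          sat_congr fun v hv => h v (mem_biUnion.2 ⟨c, hc, hv⟩)
        exact ⟨fun hs c hc => (this c hc).1 (hs c hc), fun hs c hc => (this c hc).2 (hs c hc)⟩
      · intro w w' _
        constructor
        · rintro ⟨h1, h2⟩
          exact absurd (fun c hc => h1 c (hDC hc)) h2
        · rintro ⟨h1, h2⟩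
          exact absurd (fun c hc => h1 c (hDC hc)) h2
      · intro w
        refine le_trans hHcard ?_
        calc N * (k + 1) = (k + 1) * 1 * N := by ring
          _ ≤ (k + 1) * K * N := Nat.mul_le_mul_right _ (Nat.mul_le_mul_left _ (by omega))
      · intro w
        exact biUnion_subset_biUnion_of_subset_left _ hDC
      · have := disjoint_bound (cl := fun c => c) (K := K) D (fun c hc c' hc' h => hdis c hc c' hc' h)
          (fun c hc => ⟨(hC c (hDC hc)).2, le_trans (hC c (hDC hc)).1 hk⟩)
        rw [heq] at this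
        exact this

end Pool.Agent.V8H16.OV
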