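import Mathlib
import Pool.Agent.V8H16.OV.Cnf

/-!
# Restricted circuits of depth three

The rows with color `0` are alive, and the coordinates with color `0` are late. The variables of the
alive rows at late coordinates are free, and the other variables are fixed by a restriction.
-/

set_option autoImplicit false
set_option linter.unusedSectionVars false

open Finset Classical

namespace Pool.Agent.V8H16.OV

/-- The rows: the vectors of the first (`false`) and of the second (`true`) list. -/
abbrev Row (n : ℕ) := Bool × Fin n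

/-- The input bits. -/
abbrev Var (n d : ℕ) := Row n × Fin d

section stage

variable {n d b B M S : ℕ}

/-- The variable is free. -/
def Free (F : Row n → Fin (b + 1)) (σ : Fin d → Fin (B + 1) × Bool) (v : Var n d) : Prop :=
  F v.1 = 0 ∧ (σ v.2).1 = 0

/-- The value of a fixed variable. In alive rows the two sides have complementary bits. -/
noncomputable def fixv (F : Row n → Fin (b + 1)) (σ : Fin d → Fin (B + 1) × Bool)
    (z : Var n d → Bool) (v : Var n d) : Bool :=
  if F v.1 = 0 then xor (σ v.2).2 v.1.1 else z v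

/-- The instance with the values `w` of the free variables. -/
noncomputable def inst (F : Row n → Fin (b + 1)) (σ : Fin d → Fin (B + 1) × Bool)
    (z w : Var n d → Bool) (v : Var n d) : Bool :=
  if Free F σ v then w v else fixv F σ z v

/-- At the late coordinates the row `r'` is replaced by the complement of the row `r`. -/
noncomputable def plant (σ : Fin d → Fin (B + 1) × Bool) (r r' : Row n) (w : Var n d → Bool) :
    Var n d → Bool :=
  fun v => if v.1 = r' ∧ (σ v.2).1 = 0 then !w (r, v.2) else w v

/-- At the late coordinates the rows are swapped and complemented. -/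
noncomputable def swapc (σ : Fin d → Fin (B + 1) × Bool) (r r' : Row n) (w : Var n d → Bool) :
    Var n d → Bool :=
  fun v => if v.1 = r' ∧ (σ v.2).1 = 0 then !w (r, v.2)
    else if v.1 = r ∧ (σ v.2).1 = 0 then !w (r', v.2) else w v

theorem swapc_bij (σ : Fin d → Fin (B + 1) × Bool) {r r' : Row n} (h : r ≠ r') :
    Function.Bijective (swapc σ r r') := by
  apply Function.Involutive.bijective
  intro w
  funext ⟨v, t⟩
  unfold swapc
  by_cases ht : (σ t).1 = 0
  · by_cases h1 : v = r'
    · subst h1
      simp [ht, h]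
    · by_cases h2 : v = r
      · subst h2
        simp [ht, h1]
      · simp [h1, h2]
  · simp [ht]

theorem plant_eq (σ : Fin d → Fin (B + 1) × Bool) (r r' : Row n) (w : Var n d → Bool) (v : Var n d)
    (hv : v ∉ rowSet Prod.fst r') : plant σ r r' w v = w v := by
  have : v.1 ≠ r' := fun h => hv (by simp [rowSet, h])
  simp [plant, this]

theorem plant_swapc_eq (σ : Fin d → Fin (B + 1) × Bool) {r r' : Row n} (h : r ≠ r')
    (w : Var n d → Bool) (v : Var n d) (hv : v ∉ rowSet Prod.fst r) :
    plant σ r r' (swapc σ r r' w) v = w v := by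
  obtain ⟨v, t⟩ := v
  have h2 : v ≠ r := fun h => hv (by simp [rowSet, h])
  unfold plant swapc
  by_cases ht : (σ t).1 = 0
  · by_cases h1 : v = r'
    · subst h1
      simp [ht, h]
    · simp [h1, h2]
  · simp [ht]

/-- A disjunction of conjunctions of clauses. -/
def Sigma3 (bot : Fin M → Finset (Var n d × Bool)) (mid : Fin S → Finset (Fin M))
    (x : Var n d → Bool) : Prop := ∃ s, ∀ m ∈ mid s, Sat x (bot m)

/-- The clause is not satisfied by a fixed literal, and it has more than `K` free literals. -/
def BadClause (F : Row n → Fin (b + 1)) (σ : Fin d → Fin (B + 1) × Bool) (z : Var n d → Bool)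
    (K : ℕ) (c : Finset (Var n d × Bool)) : Prop :=
  (∀ l ∈ c, ¬ Free F σ l.1 → fixv F σ z l.1 ≠ l.2) ∧ K < (c.filter fun l => Free F σ l.1).card

/-- The alive rows of one side. -/
noncomputable def aliveRows (F : Row n → Fin (b + 1)) (e : Bool) : Finset (Row n) :=
  univ.filter fun r => r.1 = e ∧ F r = 0

theorem stage (F : Row n → Fin (b + 1)) (σ : Fin d → Fin (B + 1) × Bool) (z : Var n d → Bool)
    (K N : ℕ) (bot : Fin M → Finset (Var n d × Bool)) (mid : Fin S → Finset (Fin M))
    (hgood : ∀ m, ¬ BadClause F σ z K (bot m)) :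
    ∑ r ∈ aliveRows F false, ∑ r' ∈ aliveRows F true,
      |(cnt (fun w => Sigma3 bot mid (inst F σ z (plant σ r r' w))) : ℝ) -
        cnt (fun w => Sigma3 bot mid (inst F σ z w))| ≤
      Fintype.card (Var n d → Bool) * (2 * S * ((K * K * N : ℕ) : ℝ) ^ 2 +
        (((aliveRows F false).card : ℝ) + (aliveRows F true).card) * (K * K * N : ℕ)) +
      ((aliveRows F false).card : ℝ) * (aliveRows F true).card *
        (S * ((1 - (1 / 2) ^ K) ^ N * Fintype.card (Var n d → Bool))) := by
  let fp : Finset (Var n d × Bool) → Finset (Var n d × Bool) := fun c => c.filter fun l => Free F σ l.1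
  let C : Fin S → Finset (Finset (Var n d × Bool)) := fun s =>
    ((mid s).filter fun m => (∀ l ∈ bot m, ¬ Free F σ l.1 → fixv F σ z l.1 ≠ l.2) ∧
      ¬ Taut (fp (bot m))).image fun m => fp (bot m)
  have hC : ∀ s, ∀ c ∈ C s, c.card ≤ K ∧ ¬ Taut c := by
    intro s c hc
    obtain ⟨m, hm, rfl⟩ := mem_image.1 hc
    obtain ⟨_, h1, h2⟩ := mem_filter.1 hm
    refine ⟨?_, h2⟩
    by_contra hcon
    exact hgood m ⟨h1, not_le.1 hcon⟩
  have hF : ∀ s w, (∀ m ∈ mid s, Sat (inst F σ z w) (bot m)) ↔ ∀ c ∈ C s, Sat w c := by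
    intro s w
    constructor
    · intro h c hc
      obtain ⟨m, hm, rfl⟩ := mem_image.1 hc
      obtain ⟨hms, h1, h2⟩ := mem_filter.1 hm
      obtain ⟨l, hl, e⟩ := h m hms
      by_cases hfr : Free F σ l.1
      · refine ⟨l, mem_filter.2 ⟨hl, hfr⟩, ?_⟩
        rw [inst, if_pos hfr] at e
        exact e
      · rw [inst, if_neg hfr] at e
        exact absurd e (h1 l hl hfr)
    · intro h m hms
      by_cases h1 : ∀ l ∈ bot m, ¬ Free F σ l.1 → fixv F σ z l.1 ≠ l.2
      · by_cases h2 : Taut (fp (bot m))
        · obtain ⟨v, hv1, hv2⟩ := h2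
          cases hx : inst F σ z w v with
          | true => exact ⟨(v, true), (mem_filter.1 hv1).1, hx⟩
          | false => exact ⟨(v, false), (mem_filter.1 hv2).1, hx⟩
        · obtain ⟨l, hl, e⟩ := h _ (mem_image_of_mem _ (mem_filter.2 ⟨hms, h1, h2⟩))
          obtain ⟨hl1, hl2⟩ := mem_filter.1 hl
          refine ⟨l, hl1, ?_⟩
          rw [inst, if_pos hl2]
          exact e
      · push Not at h1
        obtain ⟨l, hl, hfr, e⟩ := h1
        refine ⟨l, hl, ?_⟩
        rw [inst, if_neg hfr]
        exact e
  choose Q O hQ hO hFl hcard _ hcnt using fun s => exists_tree K N K le_rfl (C s) (hC s)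
  have e1 : ∀ f : (Var n d → Bool) → (Var n d → Bool),
      cnt (fun w => Sigma3 bot mid (inst F σ z (f w))) = cnt (fun w => ∃ s, ∀ c ∈ C s, Sat (f w) c) := by
    intro f
    apply cnt_congr
    intro w
    unfold Sigma3
    simp only [hF]
  have hne : ∀ r ∈ aliveRows F false, ∀ r' ∈ aliveRows F true, r ≠ r' := by
    rintro r hr r' hr' rfl
    have h1 := (mem_filter.1 hr).2.1
    have h2 := (mem_filter.1 hr').2.1
    rw [h1] at h2
    exact Bool.false_ne_true h2
  have main := sum_or_diff (row := (Prod.fst : Var n d → Row n))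
    (F := fun s w => ∀ c ∈ C s, Sat w c) (O := O) (Q := Q) hQ hO hFl
    hcard (aliveRows F false) (aliveRows F true) (π := fun r r' => plant σ r r')
    (θ := fun r r' => swapc σ r r')
    (fun r hr r' hr' => swapc_bij σ (hne r hr r' hr'))
    (fun r _ r' _ w v hv => plant_eq σ r r' w v hv)
    (fun r hr r' hr' w v hv => plant_swapc_eq σ (hne r hr r' hr') w v hv)
  have e3 : ∑ s, (cnt (O s) : ℝ) ≤ S * ((1 - (1 / 2) ^ K) ^ N * Fintype.card (Var n d → Bool)) := by
    calc ∑ s, (cnt (O s) : ℝ) ≤
        ∑ _s : Fin S, ((1 - (1 / 2) ^ K) ^ N * Fintype.card (Var n d → Bool) : ℝ) :=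
          sum_le_sum fun s _ => hcnt s
      _ = _ := by rw [sum_const, card_univ, Fintype.card_fin, nsmul_eq_mul]
  simp only [e1]
  refine le_trans main ?_
  have e4 : ((aliveRows F false).card : ℝ) * (aliveRows F true).card * ∑ s, (cnt (O s) : ℝ) ≤
      ((aliveRows F false).card : ℝ) * (aliveRows F true).card *
        (S * ((1 - (1 / 2) ^ K) ^ N * Fintype.card (Var n d → Bool))) :=
    mul_le_mul_of_nonneg_left e3 (by positivity)
  linarith

end stage

end Pool.Agent.V8H16.OV
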