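import Mathlib
import Pool.Agent.V8H16.OV.Stage

/-!
# Bad clauses are rare

For a random restriction, a clause is with high probability satisfied by a fixed literal, or it has
few free literals.
-/

set_option autoImplicit false
set_option linter.unusedSectionVars false

open Finset Classical

namespace Pool.Agent.V8H16.OV

theorem sum_prod_eq {ι α : Type*} [Fintype ι] [DecidableEq ι] [Fintype α] (φ : ι → α → ℝ) :
    ∑ f : ι → α, ∏ i, φ i (f i) = ∏ i, ∑ a, φ i a := by
  rw [Finset.prod_univ_sum, Fintype.piFinset_univ]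

theorem cast_cnt {α : Type*} [Fintype α] (P : α → Prop) [DecidablePred P] :
    (cnt P : ℝ) = ∑ a, if P a then (1 : ℝ) else 0 := by
  unfold cnt
  rw [card_filter]
  push_cast
  apply sum_congr rfl
  intro a _
  by_cases h : P a <;> simp [h]

theorem prod_mem_eq {ι : Type*} [Fintype ι] [DecidableEq ι] (T : Finset ι) (f : ι → ℝ) :
    ∏ i ∈ T, f i = ∏ i, if i ∈ T then f i else 1 := by
  rw [prod_ite_mem, univ_inter]

section dist

variable {n d b B M S : ℕ}

/-- The number of the colorings such that `r` and `r'` are alive. -/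
noncomputable def wt (b : ℕ) (r r' : Row n) : ℝ := ∏ ρ : Row n, if ρ = r ∨ ρ = r' then (1 : ℝ) else b + 1

theorem wt_eq {r r' : Row n} (h : r ≠ r') : wt b r r' * (b + 1) ^ 2 = (b + 1 : ℝ) ^ (2 * n) := by
  unfold wt
  rw [prod_ite, prod_const_one, one_mul, prod_const, ← pow_add]
  congr 1
  have h1 := card_filter_add_card_filter_not (s := (univ : Finset (Row n))) (fun ρ => ρ = r ∨ ρ = r')
  have h2 : (univ.filter fun ρ : Row n => ρ = r ∨ ρ = r').card = 2 := by
    have : (univ.filter fun ρ : Row n => ρ = r ∨ ρ = r') = {r, r'} := by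
      ext ρ
      simp
    rw [this, card_pair h]
  have h3 : (univ : Finset (Row n)).card = 2 * n := by
    rw [card_univ, Fintype.card_prod, Fintype.card_bool, Fintype.card_fin]
  omega

theorem count_alive2 (r r' : Row n) :
    ∑ F : Row n → Fin (b + 1), (if F r = 0 ∧ F r' = 0 then (1 : ℝ) else 0) = wt b r r' := by
  have h1 : ∀ F : Row n → Fin (b + 1), (if F r = 0 ∧ F r' = 0 then (1 : ℝ) else 0) =
      ∏ ρ : Row n, (if ρ = r ∨ ρ = r' then (if F ρ = 0 then (1 : ℝ) else 0) else 1) := by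
    intro F
    split_ifs with h
    · rw [prod_eq_one]
      intro ρ _
      split_ifs with h1 h2 <;> try rfl
      rcases h1 with rfl | rfl
      · exact absurd h.1 h2
      · exact absurd h.2 h2
    · by_cases h1 : F r = 0
      · have h2 : ¬ F r' = 0 := fun h2 => h ⟨h1, h2⟩
        refine (prod_eq_zero (mem_univ r') ?_).symm
        simp [h2]
      · refine (prod_eq_zero (mem_univ r) ?_).symm
        simp [h1]
  simp only [h1]
  rw [sum_prod_eq (fun ρ (x : Fin (b + 1)) =>
    if ρ = r ∨ ρ = r' then (if x = 0 then (1 : ℝ) else 0) else 1)]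
  unfold wt
  apply prod_congr rfl
  intro ρ _
  split_ifs
  · simp
  · simp

theorem count_alive1 (r : Row n) :
    (∑ F : Row n → Fin (b + 1), (if F r = 0 then (1 : ℝ) else 0)) * (b + 1) =
      (b + 1 : ℝ) ^ (2 * n) := by
  have h1 : ∀ F : Row n → Fin (b + 1), (if F r = 0 then (1 : ℝ) else 0) =
      ∏ ρ : Row n, (if ρ = r then (if F ρ = 0 then (1 : ℝ) else 0) else 1) := by
    intro F
    rw [prod_ite_eq' univ r (fun ρ => if F ρ = 0 then (1 : ℝ) else 0)]
    simp
  simp only [h1]
  rw [sum_prod_eq (fun ρ (x : Fin (b + 1)) => if ρ = r then (if x = 0 then (1 : ℝ) else 0) else 1)]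
  have h2 : ∀ ρ : Row n, (∑ x : Fin (b + 1), if ρ = r then (if x = 0 then (1 : ℝ) else 0) else 1) =
      if ρ = r then 1 else (b + 1 : ℝ) := by
    intro ρ
    split_ifs <;> simp
  simp only [h2]
  rw [prod_ite, prod_const_one, one_mul, prod_const, ← pow_succ]
  congr 1
  have h1 := card_filter_add_card_filter_not (s := (univ : Finset (Row n))) (fun ρ => ρ = r)
  have h2 : (univ.filter fun ρ : Row n => ρ = r).card = 1 := by
    have : (univ.filter fun ρ : Row n => ρ = r) = {r} := by
      ext ρ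
      simp
    rw [this, card_singleton]
  have h3 : (univ : Finset (Row n)).card = 2 * n := by
    rw [card_univ, Fintype.card_prod, Fintype.card_bool, Fintype.card_fin]
  omega

/-- Many alive rows. -/
theorem partA (hb : 1 ≤ b) {r r' : Row n} (R' : Finset (Row n)) (hr1 : r ∉ R') (hr2 : r' ∉ R')
    (lam : Row n → Fin d × Bool) (c0 : ℕ) :
    ∑ F : Row n → Fin (b + 1), (if F r = 0 ∧ F r' = 0 then
      (cnt (fun z : Var n d → Bool => c0 ≤ (R'.filter fun ρ => F ρ = 0).card ∧
        ∀ ρ ∈ R', F ρ ≠ 0 → z (ρ, (lam ρ).1) ≠ (lam ρ).2) : ℝ) else 0) ≤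
      (2 / (b + 1)) ^ c0 * Fintype.card (Var n d → Bool) * wt b r r' := by
  have hb1 : (2 : ℝ) ≤ b + 1 := by
    have : (1 : ℝ) ≤ b := by exact_mod_cast hb
    linarith
  let φ : Row n → Fin (b + 1) → ℝ := fun ρ x =>
    if ρ = r ∨ ρ = r' then (if x = 0 then 1 else 0)
    else if ρ ∈ R' then (if x = 0 then (b + 1) / 2 else 1 / 2) else 1
  have hφ0 : ∀ ρ x, 0 ≤ φ ρ x := by
    intro ρ x
    simp only [φ]
    split_ifs <;> positivity
  have h1 : ∀ F : Row n → Fin (b + 1), (if F r = 0 ∧ F r' = 0 then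
      (cnt (fun z : Var n d → Bool => c0 ≤ (R'.filter fun ρ => F ρ = 0).card ∧
        ∀ ρ ∈ R', F ρ ≠ 0 → z (ρ, (lam ρ).1) ≠ (lam ρ).2) : ℝ) else 0) ≤
      (2 / (b + 1)) ^ c0 * Fintype.card (Var n d → Bool) * ∏ ρ, φ ρ (F ρ) := by
    intro F
    have hnn : (0 : ℝ) ≤ (2 / (b + 1)) ^ c0 * Fintype.card (Var n d → Bool) * ∏ ρ, φ ρ (F ρ) :=
      mul_nonneg (by positivity) (prod_nonneg fun ρ _ => hφ0 ρ (F ρ))
    split_ifs with hF
    swap
    · exact hnn
    by_cases hc : c0 ≤ (R'.filter fun ρ => F ρ = 0).card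
    swap
    · rw [cnt_eq_zero fun z hz => hc hz.1]
      exact_mod_cast hnn
    · have hprod : ∏ ρ, φ ρ (F ρ) = ∏ ρ ∈ R', (if F ρ = 0 then ((b : ℝ) + 1) / 2 else 1 / 2) := by
        rw [prod_mem_eq R']
        apply prod_congr rfl
        intro ρ _
        simp only [φ]
        by_cases h1 : ρ = r ∨ ρ = r'
        · rw [if_pos h1]
          rcases h1 with rfl | rfl
          · rw [if_pos hF.1, if_neg hr1]
          · rw [if_pos hF.2, if_neg hr2]
        · rw [if_neg h1]
      rw [hprod, prod_ite, prod_const, prod_const]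
      set al := (R'.filter fun ρ => F ρ = 0).card with hal
      set de := (R'.filter fun ρ => ¬ F ρ = 0).card with hde
      have hd := disjoint_bound (K := 1) (cl := fun ρ : Row n =>
        ({((ρ, (lam ρ).1), !(lam ρ).2)} : Finset (Var n d × Bool))) (R'.filter fun ρ => ¬ F ρ = 0)
        (by
          intro ρ _ ρ' _ hne
          rw [disjoint_left]
          intro v hv hv'
          simp only [vars, image_singleton, mem_singleton] at hv hv'
          rw [hv] at hv'
          exact hne (congrArg Prod.fst hv'))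
        (by
          intro ρ _
          constructor
          · rintro ⟨v, h1, h2⟩
            simp only [mem_singleton, Prod.mk.injEq] at h1 h2
            rw [← h1.2] at h2
            exact absurd h2.2 (by simp)
          · simp)
      have hle : (cnt (fun z : Var n d → Bool => c0 ≤ al ∧
          ∀ ρ ∈ R', F ρ ≠ 0 → z (ρ, (lam ρ).1) ≠ (lam ρ).2) : ℝ) ≤
          (1 / 2) ^ de * Fintype.card (Var n d → Bool) := by
        refine le_trans ?_ (le_trans hd (by rw [hde]; norm_num))
        have : cnt (fun z : Var n d → Bool => c0 ≤ al ∧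
            ∀ ρ ∈ R', F ρ ≠ 0 → z (ρ, (lam ρ).1) ≠ (lam ρ).2) ≤
            cnt (fun w : Var n d → Bool => ∀ t ∈ R'.filter (fun ρ => ¬ F ρ = 0),
              Sat w {((t, (lam t).1), !(lam t).2)}) := by
          apply cnt_mono
          rintro z ⟨_, hz⟩ ρ hρ
          obtain ⟨hρ1, hρ2⟩ := mem_filter.1 hρ
          refine ⟨_, mem_singleton_self _, ?_⟩
          have := hz ρ hρ1 hρ2
          show z (ρ, (lam ρ).1) = !(lam ρ).2
          cases h1 : z (ρ, (lam ρ).1) <;> cases h2 : (lam ρ).2 <;> simp_all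
        exact_mod_cast this
      refine le_trans hle ?_
      have hpow : (1 : ℝ) ≤ (2 / (b + 1)) ^ c0 * ((b + 1) / 2) ^ al := by
        have e1 : ((b + 1 : ℝ) / 2) ^ al = ((b + 1) / 2) ^ c0 * ((b + 1) / 2) ^ (al - c0) := by
          rw [← pow_add]
          congr 1
          omega
        have e2 : (2 / (b + 1 : ℝ)) ^ c0 * ((b + 1) / 2) ^ c0 = 1 := by
          rw [← mul_pow]
          have : (2 / (b + 1 : ℝ)) * ((b + 1) / 2) = 1 := by
            field_simp
          rw [this, one_pow]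
        rw [e1, ← mul_assoc, e2, one_mul]
        exact one_le_pow₀ (by linarith)
      calc (1 / 2 : ℝ) ^ de * Fintype.card (Var n d → Bool)
          = 1 * ((1 / 2 : ℝ) ^ de * Fintype.card (Var n d → Bool)) := by ring
        _ ≤ ((2 / (b + 1)) ^ c0 * ((b + 1) / 2) ^ al) *
            ((1 / 2 : ℝ) ^ de * Fintype.card (Var n d → Bool)) :=
              mul_le_mul_of_nonneg_right hpow (by positivity)
        _ = _ := by ring
  refine le_trans (sum_le_sum fun F _ => h1 F) ?_
  rw [← mul_sum, sum_prod_eq φ]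
  apply mul_le_mul_of_nonneg_left _ (by positivity)
  unfold wt
  apply prod_le_prod
  · intro ρ _
    exact sum_nonneg fun x _ => hφ0 ρ x
  · intro ρ _
    simp only [φ]
    split_ifs with h1 h2
    · simp
    · rw [sum_ite, sum_const, sum_const]
      have e1 : (univ.filter fun x : Fin (b + 1) => x = 0).card = 1 := by
        have : (univ.filter fun x : Fin (b + 1) => x = 0) = {0} := by
          ext x
          simp
        rw [this, card_singleton]
      have e2 := card_filter_add_card_filter_not (s := (univ : Finset (Fin (b + 1)))) (fun x => x = 0)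
      rw [card_univ, Fintype.card_fin] at e2
      have e3 : (univ.filter fun x : Fin (b + 1) => ¬ x = 0).card = b := by omega
      rw [e1, e3, nsmul_eq_mul, nsmul_eq_mul]
      push_cast
      linarith
    · simp

/-- Many late coordinates. -/
theorem partB (hB : 1 ≤ B) (T : Finset (Fin d)) (s β : Fin d → Bool) (l1 : ℕ) :
    (cnt (fun σ : Fin d → Fin (B + 1) × Bool => l1 ≤ (T.filter fun t => (σ t).1 = 0).card ∧
      ∀ t ∈ T, (σ t).1 ≠ 0 → xor (σ t).2 (s t) ≠ β t) : ℝ) ≤
      (2 / (B + 1)) ^ l1 * (2 * (B + 1)) ^ d := by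
  have hB1 : (2 : ℝ) ≤ B + 1 := by
    have : (1 : ℝ) ≤ B := by exact_mod_cast hB
    linarith
  let φ : Fin d → Fin (B + 1) × Bool → ℝ := fun t x =>
    if t ∈ T then (if x.1 = 0 then (B + 1) / 2 else if xor x.2 (s t) ≠ β t then 1 else 0) else 1
  have hφ0 : ∀ t x, 0 ≤ φ t x := by
    intro t x
    simp only [φ]
    split_ifs <;> positivity
  rw [cast_cnt]
  have h1 : ∀ σ : Fin d → Fin (B + 1) × Bool,
      (if l1 ≤ (T.filter fun t => (σ t).1 = 0).card ∧
        ∀ t ∈ T, (σ t).1 ≠ 0 → xor (σ t).2 (s t) ≠ β t then (1 : ℝ) else 0) ≤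
      (2 / (B + 1)) ^ l1 * ∏ t, φ t (σ t) := by
    intro σ
    split_ifs with h
    · obtain ⟨hl, hx⟩ := h
      have hprod : ∏ t, φ t (σ t) = ∏ t ∈ T, (if (σ t).1 = 0 then ((B : ℝ) + 1) / 2 else 1) := by
        rw [prod_mem_eq T]
        apply prod_congr rfl
        intro t _
        simp only [φ]
        by_cases ht : t ∈ T
        · rw [if_pos ht, if_pos ht]
          by_cases h0 : (σ t).1 = 0
          · rw [if_pos h0, if_pos h0]
          · rw [if_neg h0, if_neg h0, if_pos (hx t ht h0)]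
        · rw [if_neg ht, if_neg ht]
      rw [hprod, prod_ite, prod_const_one, mul_one, prod_const]
      set al := (T.filter fun t => (σ t).1 = 0).card with hal
      have e1 : ((B + 1 : ℝ) / 2) ^ al = ((B + 1) / 2) ^ l1 * ((B + 1) / 2) ^ (al - l1) := by
        rw [← pow_add]
        congr 1
        omega
      have e2 : (2 / (B + 1 : ℝ)) ^ l1 * ((B + 1) / 2) ^ l1 = 1 := by
        rw [← mul_pow]
        have : (2 / (B + 1 : ℝ)) * ((B + 1) / 2) = 1 := by
          field_simp
        rw [this, one_pow]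
      rw [e1, ← mul_assoc, e2, one_mul]
      exact one_le_pow₀ (by linarith)
    · exact mul_nonneg (by positivity) (prod_nonneg fun t _ => hφ0 t (σ t))
  refine le_trans (sum_le_sum fun σ _ => h1 σ) ?_
  rw [← mul_sum, sum_prod_eq φ]
  apply mul_le_mul_of_nonneg_left _ (by positivity)
  have h2 : ∀ t, ∑ x, φ t x ≤ 2 * (B + 1) := by
    intro t
    simp only [φ]
    split_ifs with ht
    · rw [Fintype.sum_prod_type]
      simp only [Fintype.sum_bool]
      have h3 : ∀ x : Fin (B + 1), ((if x = 0 then ((B : ℝ) + 1) / 2 else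
          if xor true (s t) ≠ β t then 1 else 0) + (if x = 0 then ((B : ℝ) + 1) / 2 else
          if xor false (s t) ≠ β t then 1 else 0)) = (if x = 0 then (B : ℝ) else 0) + 1 := by
        intro x
        by_cases hx : x = 0
        · simp [hx]
        · cases s t <;> cases β t <;> simp [hx]
      rw [sum_congr rfl fun x _ => h3 x, sum_add_distrib]
      simp
      linarith
    · simp
      linarith
  calc ∏ t, ∑ x, φ t x ≤ ∏ _t : Fin d, (2 * (B + 1) : ℝ) :=
        prod_le_prod (fun t _ => sum_nonneg fun x _ => hφ0 t x) fun t _ => h2 t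
    _ = _ := by rw [prod_const, card_univ, Fintype.card_fin]

/-- A clause is bad with small probability. -/
theorem bad_bound (hb : 1 ≤ b) (hB : 1 ≤ B) {K c0 l0 : ℕ} (hK : 2 * (c0 + 1) * l0 ≤ K)
    (_hc0 : 1 ≤ c0) (r r' : Row n) (c : Finset (Var n d × Bool)) :
    ∑ F : Row n → Fin (b + 1), ∑ σ : Fin d → Fin (B + 1) × Bool,
      (if F r = 0 ∧ F r' = 0 then
        (cnt (fun z : Var n d → Bool => BadClause F σ z K c) : ℝ) else 0) ≤
      ((2 / (b + 1)) ^ c0 + (2 / (B + 1)) ^ (l0 + 1)) *
        (Fintype.card (Var n d → Bool) * wt b r r' * (2 * (B + 1)) ^ d) := by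
  have hwt : 0 ≤ wt b r r' := prod_nonneg fun ρ _ => by split_ifs <;> positivity
  have hcardσ : (Fintype.card (Fin d → Fin (B + 1) × Bool) : ℝ) = (2 * (B + 1)) ^ d := by
    rw [Fintype.card_fun, Fintype.card_prod, Fintype.card_fin, Fintype.card_fin, Fintype.card_bool]
    push_cast
    ring
  rcases c.eq_empty_or_nonempty with rfl | ⟨l1, hl1⟩
  · have : ∀ F σ, cnt (fun z : Var n d → Bool => BadClause (b := b) (B := B) F σ z K ∅) = 0 := by
      intro F σ
      apply cnt_eq_zero
      intro z hz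
      have := hz.2
      rw [filter_empty, card_empty] at this
      exact absurd this (Nat.not_lt_zero _)
    simp only [this, Nat.cast_zero, ite_self, sum_const_zero]
    positivity
  have : Nonempty (Fin d × Bool) := ⟨(l1.1.2, l1.2)⟩
  have : Nonempty (Var n d × Bool) := ⟨l1⟩
  set R' := (c.image fun l => l.1.1).filter fun ρ => ρ ≠ r ∧ ρ ≠ r' with hR'
  have h1 : ∀ ρ : Row n, ρ ∈ R' → ∃ p : Fin d × Bool, ((ρ, p.1), p.2) ∈ c := by
    intro ρ hρ
    obtain ⟨l, hl, rfl⟩ := mem_image.1 (mem_filter.1 hρ).1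
    exact ⟨(l.1.2, l.2), hl⟩
  choose! lam hlam using h1
  let T : (Row n → Fin (b + 1)) → Finset (Fin d) := fun F =>
    (c.filter fun l => F l.1.1 = 0).image fun l => l.1.2
  have h2 : ∀ (F : Row n → Fin (b + 1)) (t : Fin d), t ∈ T F →
      ∃ l : Var n d × Bool, l ∈ c ∧ F l.1.1 = 0 ∧ l.1.2 = t := by
    intro F t ht
    obtain ⟨l, hl, e⟩ := mem_image.1 ht
    exact ⟨l, (mem_filter.1 hl).1, (mem_filter.1 hl).2, e⟩
  choose! mu hmu using h2
  have hcase : ∀ (F : Row n → Fin (b + 1)) (σ : Fin d → Fin (B + 1) × Bool) (z : Var n d → Bool),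
      BadClause F σ z K c →
      (c0 ≤ (R'.filter fun ρ => F ρ = 0).card ∧
        ∀ ρ ∈ R', F ρ ≠ 0 → z (ρ, (lam ρ).1) ≠ (lam ρ).2) ∨
      (l0 + 1 ≤ ((T F).filter fun t => (σ t).1 = 0).card ∧
        ∀ t ∈ T F, (σ t).1 ≠ 0 → xor (σ t).2 (mu F t).1.1.1 ≠ (mu F t).2) := by
    rintro F σ z ⟨hfix, hcard⟩
    by_cases ha : c0 ≤ (R'.filter fun ρ => F ρ = 0).card
    · refine Or.inl ⟨ha, fun ρ hρ hF => ?_⟩
      have := hfix _ (hlam ρ hρ) (fun h => hF h.1)
      rwa [fixv, if_neg hF] at this
    by_cases hl : l0 + 1 ≤ ((T F).filter fun t => (σ t).1 = 0).card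
    · refine Or.inr ⟨hl, fun t ht hσ => ?_⟩
      obtain ⟨m1, m2, m3⟩ := hmu F t ht
      have := hfix _ m1 (fun h => hσ (by rw [← m3]; exact h.2))
      rw [fixv, if_pos m2, m3] at this
      exact this
    exfalso
    have hsub : (c.filter fun l => Free F σ l.1) ⊆
        ((((R'.filter fun ρ => F ρ = 0) ∪ {r, r'}) ×ˢ ((T F).filter fun t => (σ t).1 = 0)) ×ˢ
          (univ : Finset Bool)) := by
      intro l hl'
      obtain ⟨hlc, hf1, hf2⟩ := mem_filter.1 hl'
      refine mem_product.2 ⟨mem_product.2 ⟨?_, ?_⟩, mem_univ _⟩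
      · by_cases hr : l.1.1 = r ∨ l.1.1 = r'
        · refine mem_union_right _ ?_
          simpa using hr
        · push Not at hr
          refine mem_union_left _ (mem_filter.2 ⟨mem_filter.2 ⟨mem_image_of_mem _ hlc, hr⟩, hf1⟩)
      · exact mem_filter.2 ⟨mem_image.2 ⟨l, mem_filter.2 ⟨hlc, hf1⟩, rfl⟩, hf2⟩
    have h3 := card_le_card hsub
    rw [card_product, card_product, card_univ, Fintype.card_bool] at h3
    have h4 : ((R'.filter fun ρ => F ρ = 0) ∪ {r, r'}).card ≤ c0 + 1 := by
      refine le_trans (card_union_le _ _) ?_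
      have : ({r, r'} : Finset (Row n)).card ≤ 2 := card_le_two
      omega
    have h5 : ((T F).filter fun t => (σ t).1 = 0).card ≤ l0 := by omega
    have h6 := Nat.mul_le_mul h4 h5
    have h7 : (c0 + 1) * l0 * 2 = 2 * (c0 + 1) * l0 := by ring
    have h8 := Nat.mul_le_mul_right 2 h6
    omega
  have hA := partA (d := d) hb (r := r) (r' := r') R' (by simp [hR']) (by simp [hR']) lam c0
  have hBd : ∀ F, _ := fun F : Row n → Fin (b + 1) =>
    partB hB (T F) (fun t => (mu F t).1.1.1) (fun t => (mu F t).2) (l0 + 1)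
  set PA : (Row n → Fin (b + 1)) → ℝ := fun F =>
    (cnt (fun z : Var n d → Bool => c0 ≤ (R'.filter fun ρ => F ρ = 0).card ∧
      ∀ ρ ∈ R', F ρ ≠ 0 → z (ρ, (lam ρ).1) ≠ (lam ρ).2) : ℝ) with hPA
  set PB : (Row n → Fin (b + 1)) → (Fin d → Fin (B + 1) × Bool) → Prop := fun F σ =>
    (l0 + 1 ≤ ((T F).filter fun t => (σ t).1 = 0).card ∧
        ∀ t ∈ T F, (σ t).1 ≠ 0 → xor (σ t).2 (mu F t).1.1.1 ≠ (mu F t).2) with hPB
  have hpt : ∀ F σ, (cnt (fun z : Var n d → Bool => BadClause F σ z K c) : ℝ) ≤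
      PA F + (if PB F σ then (1 : ℝ) else 0) * Fintype.card (Var n d → Bool) := by
    intro F σ
    have h3 : cnt (fun z : Var n d → Bool => BadClause F σ z K c) ≤
        cnt (fun z : Var n d → Bool => c0 ≤ (R'.filter fun ρ => F ρ = 0).card ∧
          ∀ ρ ∈ R', F ρ ≠ 0 → z (ρ, (lam ρ).1) ≠ (lam ρ).2) + cnt (fun _ : Var n d → Bool => PB F σ) :=
      cnt_or fun z hz => hcase F σ z hz
    have h4 : (cnt (fun _ : Var n d → Bool => PB F σ) : ℝ) =
        (if PB F σ then (1 : ℝ) else 0) * Fintype.card (Var n d → Bool) := by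
      rw [cast_cnt, sum_const, card_univ, nsmul_eq_mul, mul_comm]
    rw [← h4]
    refine le_trans (Nat.cast_le.2 h3) ?_
    rw [Nat.cast_add]
  calc ∑ F : Row n → Fin (b + 1), ∑ σ : Fin d → Fin (B + 1) × Bool,
      (if F r = 0 ∧ F r' = 0 then
        (cnt (fun z : Var n d → Bool => BadClause F σ z K c) : ℝ) else 0)
      ≤ ∑ F : Row n → Fin (b + 1), ∑ σ : Fin d → Fin (B + 1) × Bool,
        ((if F r = 0 ∧ F r' = 0 then PA F else 0) + (if F r = 0 ∧ F r' = 0 then (1 : ℝ) else 0) *
          ((if PB F σ then (1 : ℝ) else 0) * Fintype.card (Var n d → Bool))) := by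
        apply sum_le_sum
        intro F _
        apply sum_le_sum
        intro σ _
        by_cases h : F r = 0 ∧ F r' = 0
        · rw [if_pos h, if_pos h, if_pos h, one_mul]
          exact hpt F σ
        · rw [if_neg h, if_neg h, if_neg h, zero_mul, add_zero]
    _ = (2 * (B + 1)) ^ d * (∑ F : Row n → Fin (b + 1), (if F r = 0 ∧ F r' = 0 then PA F else 0)) +
        (∑ F : Row n → Fin (b + 1), (if F r = 0 ∧ F r' = 0 then (1 : ℝ) else 0) *
          ((cnt (PB F) : ℝ) * Fintype.card (Var n d → Bool))) := by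
        simp only [sum_add_distrib, sum_const, card_univ, nsmul_eq_mul, hcardσ]
        rw [← mul_sum]
        congr 1
        apply sum_congr rfl
        intro F _
        rw [← mul_sum, ← sum_mul, cast_cnt]
    _ ≤ (2 * (B + 1)) ^ d * ((2 / (b + 1)) ^ c0 * Fintype.card (Var n d → Bool) * wt b r r') +
        (∑ F : Row n → Fin (b + 1), (if F r = 0 ∧ F r' = 0 then (1 : ℝ) else 0) *
          (((2 / (B + 1)) ^ (l0 + 1) * (2 * (B + 1)) ^ d) * Fintype.card (Var n d → Bool))) := by
        apply add_le_add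
        · exact mul_le_mul_of_nonneg_left hA (by positivity)
        · apply sum_le_sum
          intro F _
          apply mul_le_mul_of_nonneg_left _ (by split_ifs <;> norm_num)
          exact mul_le_mul_of_nonneg_right (hBd F) (Nat.cast_nonneg _)
    _ = _ := by
        rw [← sum_mul, count_alive2]
        ring

end dist

end Pool.Agent.V8H16.OV
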