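import Mathlib
import Pool.Agent.V8H16.OV.Dist

/-!
# The random instances are valid
-/

set_option autoImplicit false
set_option linter.unusedSectionVars false

open Finset Classical

namespace Pool.Agent.V8H16.OV

section valid

variable {n d b B : ℕ}

/-- The vectors of each list are distinct. -/
def Valid (x : Var n d → Bool) : Prop :=
  ∀ e : Bool, Function.Injective fun (i : Fin n) (t : Fin d) => x ((e, i), t)

/-- A vector of the first list is orthogonal to a vector of the second list. -/
def Orth (x : Var n d → Bool) : Prop :=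
  ∃ i j : Fin n, ∀ t : Fin d, ¬ (x ((false, i), t) = true ∧ x ((true, j), t) = true)

/-- The late coordinates. -/
noncomputable def late (σ : Fin d → Fin (B + 1) × Bool) : Finset (Fin d) :=
  univ.filter fun t => (σ t).1 = 0

/-- At the late coordinates two rows do not have certain bits. -/
def Coll (σ : Fin d → Fin (B + 1) × Bool) (u : Var n d → Bool) : Prop :=
  ∃ p : (Row n × Row n) × Bool, p.1.1 ≠ p.1.2 ∧
    ∀ t ∈ late σ, Sat u {((p.1.1, t), p.2), ((p.1.2, t), false)}

theorem cnt_exists' {α ι : Type*} [Fintype α] [Fintype ι] (P : ι → α → Prop) :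
    cnt (fun a => ∃ s, P s a) ≤ ∑ s, cnt (P s) := by
  unfold cnt
  refine le_trans (card_le_card ?_) card_biUnion_le
  intro a ha
  simpa using ha

theorem coll_bound (σ : Fin d → Fin (B + 1) × Bool) :
    (cnt (fun u : Var n d → Bool => Coll σ u) : ℝ) ≤
      8 * (n : ℝ) ^ 2 * ((3 / 4) ^ (late σ).card * Fintype.card (Var n d → Bool)) := by
  have h1 : (cnt (fun u : Var n d → Bool => Coll σ u) : ℝ) ≤ ∑ p : (Row n × Row n) × Bool,
      (cnt (fun u : Var n d → Bool => p.1.1 ≠ p.1.2 ∧
        ∀ t ∈ late σ, Sat u {((p.1.1, t), p.2), ((p.1.2, t), false)}) : ℝ) := by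
    have := cnt_exists' (fun (p : (Row n × Row n) × Bool) (u : Var n d → Bool) => p.1.1 ≠ p.1.2 ∧
        ∀ t ∈ late σ, Sat u {((p.1.1, t), p.2), ((p.1.2, t), false)})
    exact_mod_cast this
  refine le_trans h1 ?_
  have h2 : ∀ p : (Row n × Row n) × Bool, (cnt (fun u : Var n d → Bool => p.1.1 ≠ p.1.2 ∧
        ∀ t ∈ late σ, Sat u {((p.1.1, t), p.2), ((p.1.2, t), false)}) : ℝ) ≤
      (3 / 4) ^ (late σ).card * Fintype.card (Var n d → Bool) := by
    rintro ⟨⟨ρ1, ρ2⟩, α⟩
    by_cases hne : ρ1 ≠ ρ2
    · have hd := disjoint_bound (K := 2) (cl := fun t : Fin d =>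
        ({((ρ1, t), α), ((ρ2, t), false)} : Finset (Var n d × Bool))) (late σ)
        (by
          intro t _ t' _ htt
          rw [disjoint_left]
          intro v hv hv'
          simp only [vars, image_insert, image_singleton, mem_insert, mem_singleton] at hv hv'
          apply htt
          rcases hv with rfl | rfl <;> rcases hv' with h | h <;>
            exact congrArg Prod.snd h)
        (by
          intro t _
          constructor
          · rintro ⟨v, h1, h2⟩
            simp only [mem_insert, mem_singleton, Prod.mk.injEq] at h1 h2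
            rcases h1 with h1 | h1
            · rcases h2 with h2 | h2
              · rw [← h1.2] at h2
                exact absurd h2.2 (by simp)
              · rw [h1.1] at h2
                exact hne (congrArg Prod.fst h2.1)
            · exact absurd h1.2 (by simp)
          · exact card_le_two)
      have e : cnt (fun u : Var n d → Bool => ρ1 ≠ ρ2 ∧
          ∀ t ∈ late σ, Sat u {((ρ1, t), α), ((ρ2, t), false)}) ≤
          cnt (fun u : Var n d → Bool => ∀ t ∈ late σ, Sat u {((ρ1, t), α), ((ρ2, t), false)}) :=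
        cnt_mono fun u hu => hu.2
      refine le_trans (Nat.cast_le.2 e) (le_trans hd ?_)
      norm_num
    · have : cnt (fun u : Var n d → Bool => ρ1 ≠ ρ2 ∧
          ∀ t ∈ late σ, Sat u {((ρ1, t), α), ((ρ2, t), false)}) = 0 :=
        cnt_eq_zero fun u hu => hne hu.1
      show ((cnt (fun u : Var n d → Bool => ρ1 ≠ ρ2 ∧
          ∀ t ∈ late σ, Sat u {((ρ1, t), α), ((ρ2, t), false)}) : ℕ) : ℝ) ≤ _
      rw [this, Nat.cast_zero]
      positivity
  refine le_trans (sum_le_sum fun p _ => h2 p) ?_
  rw [sum_const, card_univ, nsmul_eq_mul, Fintype.card_prod, Fintype.card_prod, Fintype.card_prod,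
    Fintype.card_bool, Fintype.card_fin]
  apply le_of_eq
  push_cast
  ring

theorem sum_late : ∑ σ : Fin d → Fin (B + 1) × Bool, (3 / 4 : ℝ) ^ (late σ).card =
    (2 * (B + 1) - 1 / 2) ^ d := by
  have h1 : ∀ σ : Fin d → Fin (B + 1) × Bool, (3 / 4 : ℝ) ^ (late σ).card =
      ∏ t, (if (σ t).1 = 0 then (3 / 4 : ℝ) else 1) := by
    intro σ
    rw [prod_ite, prod_const_one, mul_one, prod_const]
    rfl
  simp only [h1]
  rw [sum_prod_eq (fun (_ : Fin d) (x : Fin (B + 1) × Bool) => if x.1 = 0 then (3 / 4 : ℝ) else 1)]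
  rw [prod_const, card_univ, Fintype.card_fin]
  congr 1
  rw [Fintype.sum_prod_type]
  simp only [Fintype.sum_bool]
  have h3 : ∀ x : Fin (B + 1), ((if x = 0 then (3 / 4 : ℝ) else 1) + (if x = 0 then (3 / 4 : ℝ) else 1))
      = (if x = 0 then (- 1 / 2 : ℝ) else 0) + 2 := by
    intro x
    split_ifs <;> norm_num
  rw [sum_congr rfl fun x _ => h3 x, sum_add_distrib]
  simp
  ring

/-- The sample is good: both instances are valid, and the first one is a no-instance. -/
def Good (F : Row n → Fin (b + 1)) (σ : Fin d → Fin (B + 1) × Bool) (r r' : Row n)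
    (z w : Var n d → Bool) : Prop :=
  Valid (inst F σ z w) ∧ ¬ Orth (inst F σ z w) ∧ Valid (inst F σ z (plant σ r r' w))

theorem coll_of_not_good {F : Row n → Fin (b + 1)} {σ : Fin d → Fin (B + 1) × Bool} {r r' : Row n}
    (hr : r.1 = false) (hr' : r'.1 = true) (hFr : F r = 0) (hFr' : F r' = 0)
    {z w : Var n d → Bool} (h : ¬ Good F σ r r' z w) :
    Coll σ (merge (univ.filter fun v : Var n d => F v.1 = 0) w z) := by
  set u := merge (univ.filter fun v : Var n d => F v.1 = 0) w z with hu
  have hu0 : ∀ ρ, ∀ t ∈ late σ, inst F σ z w (ρ, t) = u (ρ, t) := by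
    intro ρ t ht
    have ht0 : (σ t).1 = 0 := (mem_filter.1 ht).2
    by_cases hF : F ρ = 0
    · rw [inst, if_pos ⟨hF, ht0⟩, hu, merge, if_pos (by simp [hF])]
    · rw [inst, if_neg (fun hf => hF hf.1), fixv, if_neg hF, hu, merge, if_neg (by simp [hF])]
  have hrr : r ≠ r' := fun e => by rw [e, hr'] at hr; exact absurd hr (by simp)
  have hu1 : ∀ ρ, ρ ≠ r' → ∀ t ∈ late σ, inst F σ z (plant σ r r' w) (ρ, t) = u (ρ, t) := by
    intro ρ hρ t ht
    rw [← hu0 ρ t ht]
    unfold inst plant
    simp [hρ]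
  have hu2 : ∀ t ∈ late σ, inst F σ z (plant σ r r' w) (r', t) = !u (r, t) := by
    intro t ht
    have ht0 : (σ t).1 = 0 := (mem_filter.1 ht).2
    rw [← hu0 r t ht, inst, if_pos ⟨hFr', ht0⟩, inst, if_pos ⟨hFr, ht0⟩, plant, if_pos ⟨rfl, ht0⟩]
  by_contra hcon
  apply h
  have hsat : ∀ ρ1 ρ2 : Row n, ρ1 ≠ ρ2 → ∀ α : Bool,
      ¬ ∀ t ∈ late σ, (u (ρ1, t) = α ∨ u (ρ2, t) = false) := by
    intro ρ1 ρ2 hne α hall
    apply hcon
    refine ⟨((ρ1, ρ2), α), hne, fun t ht => ?_⟩
    rcases hall t ht with h1 | h1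
    · exact ⟨((ρ1, t), α), by simp, h1⟩
    · exact ⟨((ρ2, t), false), by simp, h1⟩
  refine ⟨?_, ?_, ?_⟩
  · intro e i j hij
    by_contra hne
    refine hsat (e, i) (e, j) (fun h' => hne (congrArg Prod.snd h')) true fun t ht => ?_
    have h1 := congrFun hij t
    simp only at h1
    rw [hu0 _ t ht, hu0 _ t ht] at h1
    rw [h1]
    cases u ((e, j), t) <;> simp
  · rintro ⟨i, j, hij⟩
    refine hsat (false, i) (true, j) (fun h' => absurd (congrArg Prod.fst h') (by simp)) false
      fun t ht => ?_
    have h1 := hij t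
    rw [hu0 _ t ht, hu0 _ t ht] at h1
    cases h2 : u ((false, i), t) <;> cases h3 : u ((true, j), t) <;> simp_all
  · intro e i j hij
    by_contra hne
    by_cases hi : ((e, i) : Row n) = r'
    · have hj : ((e, j) : Row n) ≠ r' := fun h' => hne (congrArg Prod.snd (hi.trans h'.symm))
      have he : e = true := by rw [← hi] at hr'; exact hr'
      refine hsat r (e, j) (fun h' => ?_) false fun t ht => ?_
      · rw [h', he] at hr
        exact absurd hr (by simp)
      · have h1 := congrFun hij t
        simp only at h1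
        rw [hi, hu2 t ht, hu1 _ hj t ht] at h1
        rw [← h1]
        cases u (r, t) <;> simp
    · by_cases hj : ((e, j) : Row n) = r'
      · have he : e = true := by rw [← hj] at hr'; exact hr'
        refine hsat r (e, i) (fun h' => ?_) false fun t ht => ?_
        · rw [h', he] at hr
          exact absurd hr (by simp)
        · have h1 := congrFun hij t
          simp only at h1
          rw [hj, hu2 t ht, hu1 _ hi t ht] at h1
          rw [h1]
          cases u (r, t) <;> simp
      · refine hsat (e, i) (e, j) (fun h' => hne (congrArg Prod.snd h')) true fun t ht => ?_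
        have h1 := congrFun hij t
        simp only at h1
        rw [hu1 _ hi t ht, hu1 _ hj t ht] at h1
        rw [h1]
        cases u ((e, j), t) <;> simp

theorem good_bound {F : Row n → Fin (b + 1)} {r r' : Row n}
    (hr : r.1 = false) (hr' : r'.1 = true) (hFr : F r = 0) (hFr' : F r' = 0) :
    ∑ σ : Fin d → Fin (B + 1) × Bool,
      (cnt (fun p : (Var n d → Bool) × (Var n d → Bool) => ¬ Good F σ r r' p.1 p.2) : ℝ) ≤
      8 * (n : ℝ) ^ 2 * ((2 * (B + 1) - 1 / 2) ^ d * (Fintype.card (Var n d → Bool)) ^ 2) := by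
  have h1 : ∀ σ : Fin d → Fin (B + 1) × Bool,
      (cnt (fun p : (Var n d → Bool) × (Var n d → Bool) => ¬ Good F σ r r' p.1 p.2) : ℝ) ≤
      8 * (n : ℝ) ^ 2 * (Fintype.card (Var n d → Bool)) ^ 2 * (3 / 4) ^ (late σ).card := by
    intro σ
    set H := univ.filter fun v : Var n d => F v.1 = 0 with hH
    have e1 : cnt (fun p : (Var n d → Bool) × (Var n d → Bool) => ¬ Good F σ r r' p.1 p.2) ≤
        cnt (fun p : (Var n d → Bool) × (Var n d → Bool) => Coll σ (merge H p.2 p.1)) :=
      cnt_mono fun p hp => coll_of_not_good hr hr' hFr hFr' hp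
    have e2 : cnt (fun p : (Var n d → Bool) × (Var n d → Bool) => Coll σ (merge H p.2 p.1)) =
        cnt (fun p : (Var n d → Bool) × (Var n d → Bool) => Coll σ p.2) :=
      cnt_bij (fun p : (Var n d → Bool) × (Var n d → Bool) => Coll σ p.2) (merge_bij H)
    have e3 : cnt (fun p : (Var n d → Bool) × (Var n d → Bool) => Coll σ p.2) =
        Fintype.card (Var n d → Bool) * cnt (fun u : Var n d → Bool => Coll σ u) := by
      rw [cnt_prod (fun (_ : Var n d → Bool) (u : Var n d → Bool) => Coll σ u), sum_const, card_univ,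
        smul_eq_mul]
    calc (cnt (fun p : (Var n d → Bool) × (Var n d → Bool) => ¬ Good F σ r r' p.1 p.2) : ℝ)
        ≤ (cnt (fun p : (Var n d → Bool) × (Var n d → Bool) => Coll σ (merge H p.2 p.1)) : ℝ) :=
          Nat.cast_le.2 e1
      _ = Fintype.card (Var n d → Bool) * cnt (fun u : Var n d → Bool => Coll σ u) := by
          rw [e2, e3, Nat.cast_mul]
      _ ≤ Fintype.card (Var n d → Bool) *
          (8 * (n : ℝ) ^ 2 * ((3 / 4) ^ (late σ).card * Fintype.card (Var n d → Bool))) :=
          mul_le_mul_of_nonneg_left (coll_bound σ) (Nat.cast_nonneg _)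
      _ = _ := by ring
  refine le_trans (sum_le_sum fun σ _ => h1 σ) ?_
  rw [← mul_sum, sum_late]
  apply le_of_eq
  ring

/-- The second instance is a yes-instance. -/
theorem orth_plant {F : Row n → Fin (b + 1)} {σ : Fin d → Fin (B + 1) × Bool} {r r' : Row n}
    (hr : r.1 = false) (hr' : r'.1 = true) (hFr : F r = 0) (hFr' : F r' = 0)
    (z w : Var n d → Bool) : Orth (inst F σ z (plant σ r r' w)) := by
  have hrr : r ≠ r' := fun e => by rw [e, hr'] at hr; exact absurd hr (by simp)
  refine ⟨r.2, r'.2, fun t => ?_⟩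
  have e1 : ((false, r.2) : Row n) = r := by rw [← hr]
  have e2 : ((true, r'.2) : Row n) = r' := by rw [← hr']
  rw [e1, e2]
  by_cases ht : (σ t).1 = 0
  · rw [inst, if_pos ⟨hFr, ht⟩, inst, if_pos ⟨hFr', ht⟩, plant, if_neg (fun h => hrr h.1), plant,
      if_pos ⟨rfl, ht⟩]
    cases w (r, t) <;> simp
  · rw [inst, if_neg (fun h => ht h.2), inst, if_neg (fun h => ht h.2), fixv, if_pos hFr, fixv,
      if_pos hFr']
    simp only [hr, hr']
    cases (σ t).2 <;> simp

end valid

end Pool.Agent.V8H16.OV
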