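import Mathlib
import Pool.Agent.V8H16.OV.Valid

/-!
# The advantage of a circuit of depth three
-/

set_option autoImplicit false
set_option linter.unusedSectionVars false

open Finset Classical

namespace Pool.Agent.V8H16.OV

section core

variable {n d b B M S : ℕ}

/-- The rows of one side. -/
noncomputable def side (n : ℕ) (e : Bool) : Finset (Row n) := univ.filter fun r => r.1 = e

theorem card_side (e : Bool) : (side n e).card = n := by
  have : side n e = (univ : Finset (Fin n)).image fun i => (e, i) := by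
    ext ⟨a, i⟩
    simp only [side, mem_filter, mem_univ, true_and, mem_image, Prod.mk.injEq]
    constructor
    · rintro rfl
      exact ⟨i, rfl, rfl⟩
    · rintro ⟨j, h, _⟩
      exact h.symm
  rw [this, card_image_of_injective _ (fun i j h => congrArg Prod.snd h), card_univ,
    Fintype.card_fin]

theorem aliveRows_eq (F : Row n → Fin (b + 1)) (e : Bool) :
    aliveRows F e = (side n e).filter fun r => F r = 0 := by
  unfold aliveRows side
  rw [filter_filter]

theorem reorder (k : (Row n → Fin (b + 1)) → Row n → Row n → ℝ) :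
    ∑ F, ∑ r ∈ aliveRows F false, ∑ r' ∈ aliveRows F true, k F r r' =
      ∑ r ∈ side n false, ∑ r' ∈ side n true, ∑ F, if F r = 0 ∧ F r' = 0 then k F r r' else 0 := by
  have h1 : ∀ F, ∑ r ∈ aliveRows F false, ∑ r' ∈ aliveRows F true, k F r r' =
      ∑ r ∈ side n false, ∑ r' ∈ side n true, if F r = 0 ∧ F r' = 0 then k F r r' else 0 := by
    intro F
    rw [aliveRows_eq, aliveRows_eq, sum_filter]
    apply sum_congr rfl
    intro r _
    by_cases h : F r = 0
    · rw [if_pos h, sum_filter]
      apply sum_congr rfl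
      intro r' _
      simp [h]
    · rw [if_neg h, sum_eq_zero]
      intro r' _
      rw [if_neg fun h' => h h'.1]
  rw [sum_congr rfl fun F _ => h1 F, sum_comm]
  apply sum_congr rfl
  intro r _
  rw [sum_comm]

theorem swap4 {α β γ δ : Type*} (s : Finset α) (t : Finset β) (u : Finset γ) (v : Finset δ)
    (f : α → β → γ → δ → ℝ) :
    ∑ a ∈ s, ∑ b ∈ t, ∑ c ∈ u, ∑ e ∈ v, f a b c e =
      ∑ c ∈ u, ∑ e ∈ v, ∑ a ∈ s, ∑ b ∈ t, f a b c e := by
  have h1 : ∀ a ∈ s, ∑ b ∈ t, ∑ c ∈ u, ∑ e ∈ v, f a b c e =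
      ∑ c ∈ u, ∑ e ∈ v, ∑ b ∈ t, f a b c e := by
    intro a _
    rw [sum_comm]
    apply sum_congr rfl
    intro c _
    rw [sum_comm]
  rw [sum_congr rfl h1, sum_comm]
  apply sum_congr rfl
  intro c _
  rw [sum_comm]

/-- The number of the colorings such that two given rows are alive. -/
noncomputable def wt0 (b n : ℕ) : ℝ := (b + 1 : ℝ) ^ (2 * n) / (b + 1) ^ 2

theorem wt_eq0 {r r' : Row n} (h : r ≠ r') : wt b r r' = wt0 b n := by
  unfold wt0
  rw [eq_div_iff (by positivity)]
  exact wt_eq h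

theorem ne_of_side {r r' : Row n} (hr : r ∈ side n false) (hr' : r' ∈ side n true) : r ≠ r' := by
  rintro rfl
  have h1 := (mem_filter.1 hr).2
  rw [(mem_filter.1 hr').2] at h1
  exact absurd h1 (by simp)

theorem sum_alive2 (c : ℝ) :
    ∑ F : Row n → Fin (b + 1), ∑ _r ∈ aliveRows F false, ∑ _r' ∈ aliveRows F true, c =
      (n : ℝ) ^ 2 * wt0 b n * c := by
  rw [reorder]
  have h1 : ∀ r ∈ side n false, ∑ r' ∈ side n true, ∑ F : Row n → Fin (b + 1),
      (if F r = 0 ∧ F r' = 0 then c else 0) = n * (wt0 b n * c) := by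
    intro r hr
    have h2 : ∀ r' ∈ side n true, ∑ F : Row n → Fin (b + 1),
        (if F r = 0 ∧ F r' = 0 then c else 0) = wt0 b n * c := by
      intro r' hr'
      rw [← wt_eq0 (ne_of_side hr hr'), ← count_alive2, sum_mul]
      apply sum_congr rfl
      intro F _
      split_ifs <;> simp
    rw [sum_congr rfl h2, sum_const, card_side, nsmul_eq_mul]
  rw [sum_congr rfl h1, sum_const, card_side, nsmul_eq_mul]
  ring

theorem sum_alive_card (e : Bool) :
    ∑ F : Row n → Fin (b + 1), ((aliveRows F e).card : ℝ) = n * ((b + 1) * wt0 b n) := by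
  have h1 : ∀ F : Row n → Fin (b + 1), ((aliveRows F e).card : ℝ) =
      ∑ r ∈ side n e, if F r = 0 then (1 : ℝ) else 0 := by
    intro F
    rw [aliveRows_eq, card_filter]
    push_cast
    rfl
  rw [sum_congr rfl fun F _ => h1 F, sum_comm]
  have h2 : ∀ r ∈ side n e, ∑ F : Row n → Fin (b + 1), (if F r = 0 then (1 : ℝ) else 0) =
      (b + 1) * wt0 b n := by
    intro r _
    have h3 := count_alive1 (b := b) r
    unfold wt0
    have hb : (b + 1 : ℝ) ≠ 0 := by positivity
    field_simp
    exact h3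
  rw [sum_congr rfl h2, sum_const, card_side, nsmul_eq_mul]

theorem card_colorings : (Fintype.card (Row n → Fin (b + 1)) : ℝ) = (b + 1) ^ 2 * wt0 b n := by
  rw [Fintype.card_fun, Fintype.card_prod, Fintype.card_fin, Fintype.card_fin, Fintype.card_bool]
  unfold wt0
  have hb : (b + 1 : ℝ) ≠ 0 := by positivity
  field_simp
  push_cast
  ring

theorem card_sigma : (Fintype.card (Fin d → Fin (B + 1) × Bool) : ℝ) = (2 * (B + 1)) ^ d := by
  rw [Fintype.card_fun, Fintype.card_prod, Fintype.card_fin, Fintype.card_fin, Fintype.card_bool]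
  push_cast
  ring

/-- The number of the samples. -/
noncomputable def mass (n d b B : ℕ) : ℝ :=
  (n : ℝ) ^ 2 * wt0 b n * (2 * (B + 1)) ^ d * (Fintype.card (Var n d → Bool)) ^ 2

theorem wt0_pos : 0 < wt0 b n := by
  unfold wt0
  positivity

theorem mass_pos (hn : 1 ≤ n) : 0 < mass n d b B := by
  unfold mass
  have h1 := wt0_pos (b := b) (n := n)
  have h2 : (0 : ℝ) < n := by exact_mod_cast hn
  have h3 : (0 : ℝ) < Fintype.card (Var n d → Bool) := by
    have : 0 < Fintype.card (Var n d → Bool) := Fintype.card_pos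
    exact_mod_cast this
  positivity

/-- The difference of the sums of `g` over the yes-instances and over the no-instances. -/
noncomputable def Dif (b B : ℕ) (g : (Var n d → Bool) → ℝ) : ℝ :=
  ∑ F : Row n → Fin (b + 1), ∑ σ : Fin d → Fin (B + 1) × Bool, ∑ z : Var n d → Bool,
    ∑ r ∈ aliveRows F false, ∑ r' ∈ aliveRows F true, ∑ w : Var n d → Bool,
      (g (inst F σ z (plant σ r r' w)) - g (inst F σ z w))

theorem dif_lower {g : (Var n d → Bool) → ℝ} {Δ A : ℝ} (hA : 0 ≤ A)
    (h1 : ∀ x y, Valid x → Valid y → Orth x → ¬ Orth y → Δ ≤ g x - g y)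
    (h2 : ∀ x y, Δ - A ≤ g x - g y) :
    mass n d b B * (Δ - A * (8 * n ^ 2 * (1 - 1 / (4 * (B + 1))) ^ d)) ≤ Dif b B g := by
  have e1 : Dif b B g = ∑ F : Row n → Fin (b + 1), ∑ r ∈ aliveRows F false,
      ∑ r' ∈ aliveRows F true, ∑ σ : Fin d → Fin (B + 1) × Bool, ∑ z : Var n d → Bool,
        ∑ w : Var n d → Bool, (g (inst F σ z (plant σ r r' w)) - g (inst F σ z w)) := by
    unfold Dif
    apply sum_congr rfl
    intro F _
    exact swap4 _ _ _ _ _
  have e2 : ∀ F : Row n → Fin (b + 1), ∀ r ∈ aliveRows F false, ∀ r' ∈ aliveRows F true,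
      (2 * (B + 1)) ^ d * (Fintype.card (Var n d → Bool)) ^ 2 *
        (Δ - A * (8 * n ^ 2 * (1 - 1 / (4 * (B + 1))) ^ d)) ≤
      ∑ σ : Fin d → Fin (B + 1) × Bool, ∑ z : Var n d → Bool,
        ∑ w : Var n d → Bool, (g (inst F σ z (plant σ r r' w)) - g (inst F σ z w)) := by
    intro F r hr r' hr'
    obtain ⟨hr1, hr2⟩ := (mem_filter.1 hr).2
    obtain ⟨hr1', hr2'⟩ := (mem_filter.1 hr').2
    have hg := good_bound (B := B) (d := d) hr1 hr1' hr2 hr2'
    have hpt : ∀ (σ : Fin d → Fin (B + 1) × Bool) (z w : Var n d → Bool),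
        Δ - A * (if ¬ Good F σ r r' z w then (1 : ℝ) else 0) ≤
          g (inst F σ z (plant σ r r' w)) - g (inst F σ z w) := by
      intro σ z w
      by_cases hG : Good F σ r r' z w
      · rw [if_neg (not_not.2 hG), mul_zero, sub_zero]
        exact h1 _ _ hG.2.2 hG.1 (orth_plant hr1 hr1' hr2 hr2' z w) hG.2.1
      · rw [if_pos hG, mul_one]
        exact h2 _ _
    have hsum : ∑ σ : Fin d → Fin (B + 1) × Bool, ∑ z : Var n d → Bool,
        ∑ w : Var n d → Bool, (Δ - A * (if ¬ Good F σ r r' z w then (1 : ℝ) else 0)) =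
        (2 * (B + 1)) ^ d * (Fintype.card (Var n d → Bool)) ^ 2 * Δ - A *
        ∑ σ : Fin d → Fin (B + 1) × Bool,
        (cnt (fun p : (Var n d → Bool) × (Var n d → Bool) => ¬ Good F σ r r' p.1 p.2) : ℝ) := by
      simp only [sum_sub_distrib, sum_const, card_univ, nsmul_eq_mul, card_sigma, mul_sum]
      congr 1
      · ring
      · apply sum_congr rfl
        intro σ _
        rw [cast_cnt, Fintype.sum_prod_type, mul_sum]
        apply sum_congr rfl
        intro z _
        rw [mul_sum]
    have hq : (2 * (B + 1) - 1 / 2 : ℝ) ^ d = (2 * (B + 1)) ^ d * (1 - 1 / (4 * (B + 1))) ^ d := by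
      rw [← mul_pow]
      congr 1
      have : (B + 1 : ℝ) ≠ 0 := by positivity
      field_simp
      ring
    calc (2 * (B + 1)) ^ d * (Fintype.card (Var n d → Bool) : ℝ) ^ 2 *
        (Δ - A * (8 * n ^ 2 * (1 - 1 / (4 * (B + 1))) ^ d))
        = (2 * (B + 1)) ^ d * (Fintype.card (Var n d → Bool)) ^ 2 * Δ - A *
          (8 * (n : ℝ) ^ 2 * ((2 * (B + 1) - 1 / 2) ^ d * (Fintype.card (Var n d → Bool)) ^ 2)) := by
          rw [hq]
          ring
      _ ≤ _ := by
          rw [← sub_nonneg]
          have := mul_le_mul_of_nonneg_left hg hA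
          linarith
      _ = _ := hsum.symm
      _ ≤ _ := sum_le_sum fun σ _ => sum_le_sum fun z _ => sum_le_sum fun w _ => hpt σ z w
  rw [e1]
  refine le_trans ?_ (sum_le_sum fun F _ => sum_le_sum fun r hr => sum_le_sum fun r' hr' =>
    e2 F r hr r' hr')
  rw [sum_alive2]
  apply le_of_eq
  unfold mass
  ring

/-- The bound for the advantage. -/
noncomputable def eta (n b B M S K N c0 l0 : ℕ) : ℝ :=
  2 * S * ((K * K * N : ℕ) : ℝ) ^ 2 * (b + 1) ^ 2 / n ^ 2 + 2 * ((K * K * N : ℕ) : ℝ) * (b + 1) / n +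
    S * (1 - (1 / 2) ^ K) ^ N + M * ((2 / (b + 1)) ^ c0 + (2 / (B + 1)) ^ (l0 + 1))

theorem dif_upper (hn : 1 ≤ n) (hb : 1 ≤ b) (hB : 1 ≤ B) {K N c0 l0 : ℕ}
    (hK : 2 * (c0 + 1) * l0 ≤ K) (hc0 : 1 ≤ c0) (bot : Fin M → Finset (Var n d × Bool))
    (mid : Fin S → Finset (Fin M)) :
    |Dif b B (fun x : Var n d → Bool => if Sigma3 bot mid x then (1 : ℝ) else 0)| ≤
      mass n d b B * eta n b B M S K N c0 l0 := by
  set W : ℝ := ((Fintype.card (Var n d → Bool) : ℕ) : ℝ) with hW
  have hW0 : 0 < W := by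
    have : 0 < Fintype.card (Var n d → Bool) := Fintype.card_pos
    rw [hW]
    exact_mod_cast this
  set L : ℝ := ((K * K * N : ℕ) : ℝ) with hL
  have hL0 : 0 ≤ L := Nat.cast_nonneg _
  set δ : ℝ := (1 - (1 / 2) ^ K) ^ N with hδ
  have hq : (0 : ℝ) ≤ 1 - (1 / 2) ^ K := by
    have : (1 / 2 : ℝ) ^ K ≤ 1 := pow_le_one₀ (by norm_num) (by norm_num)
    linarith
  have hδ0 : 0 ≤ δ := pow_nonneg hq _
  have hn0 : (0 : ℝ) < n := by exact_mod_cast hn
  -- the bound for one restriction
  have h1 : ∀ (F : Row n → Fin (b + 1)) (σ : Fin d → Fin (B + 1) × Bool) (z : Var n d → Bool),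
      ∑ r ∈ aliveRows F false, ∑ r' ∈ aliveRows F true, |∑ w : Var n d → Bool,
        ((if Sigma3 bot mid (inst F σ z (plant σ r r' w)) then (1 : ℝ) else 0) -
          (if Sigma3 bot mid (inst F σ z w) then (1 : ℝ) else 0))| ≤
      (W * (2 * S * L ^ 2 + (((aliveRows F false).card : ℝ) + (aliveRows F true).card) * L) +
        ((aliveRows F false).card : ℝ) * (aliveRows F true).card * (S * (δ * W))) +
      ∑ m, ∑ _r ∈ aliveRows F false, ∑ _r' ∈ aliveRows F true,
        (if BadClause F σ z K (bot m) then (1 : ℝ) else 0) * W := by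
    intro F σ z
    simp only [sum_sub_distrib, ← cast_cnt]
    have hbadnn : (0 : ℝ) ≤ ∑ m, ∑ _r ∈ aliveRows F false, ∑ _r' ∈ aliveRows F true,
        (if BadClause F σ z K (bot m) then (1 : ℝ) else 0) * W :=
      sum_nonneg fun m _ => sum_nonneg fun r _ => sum_nonneg fun r' _ =>
        mul_nonneg (by split_ifs <;> norm_num) hW0.le
    by_cases hgood : ∀ m, ¬ BadClause F σ z K (bot m)
    · have := stage F σ z K N bot mid hgood
      linarith
    · push Not at hgood
      obtain ⟨m, hm⟩ := hgood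
      have h2 : ∑ r ∈ aliveRows F false, ∑ r' ∈ aliveRows F true,
          |(cnt (fun w => Sigma3 bot mid (inst F σ z (plant σ r r' w))) : ℝ) -
            cnt (fun w => Sigma3 bot mid (inst F σ z w))| ≤
          ∑ _r ∈ aliveRows F false, ∑ _r' ∈ aliveRows F true,
            (if BadClause F σ z K (bot m) then (1 : ℝ) else 0) * W := by
        apply sum_le_sum
        intro r _
        apply sum_le_sum
        intro r' _
        rw [if_pos hm, one_mul, abs_le]
        have h3 : (cnt (fun w => Sigma3 bot mid (inst F σ z (plant σ r r' w))) : ℝ) ≤ W :=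
          Nat.cast_le.2 (cnt_le_card _)
        have h4 : (cnt (fun w => Sigma3 bot mid (inst F σ z w)) : ℝ) ≤ W :=
          Nat.cast_le.2 (cnt_le_card _)
        have h5 : (0 : ℝ) ≤ (cnt (fun w => Sigma3 bot mid (inst F σ z (plant σ r r' w))) : ℝ) :=
          Nat.cast_nonneg _
        have h6 : (0 : ℝ) ≤ (cnt (fun w => Sigma3 bot mid (inst F σ z w)) : ℝ) := Nat.cast_nonneg _
        constructor <;> linarith
      have h3 : ∑ _r ∈ aliveRows F false, ∑ _r' ∈ aliveRows F true,
            (if BadClause F σ z K (bot m) then (1 : ℝ) else 0) * W ≤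
          ∑ m, ∑ _r ∈ aliveRows F false, ∑ _r' ∈ aliveRows F true,
            (if BadClause F σ z K (bot m) then (1 : ℝ) else 0) * W :=
        single_le_sum (f := fun m => ∑ _r ∈ aliveRows F false, ∑ _r' ∈ aliveRows F true,
            (if BadClause F σ z K (bot m) then (1 : ℝ) else 0) * W)
          (fun m _ => sum_nonneg fun r _ => sum_nonneg fun r' _ =>
            mul_nonneg (by split_ifs <;> norm_num) hW0.le) (mem_univ m)
      have h4 : (0 : ℝ) ≤ W * (2 * S * L ^ 2 +
          (((aliveRows F false).card : ℝ) + (aliveRows F true).card) * L) +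
        ((aliveRows F false).card : ℝ) * (aliveRows F true).card * (S * (δ * W)) := by positivity
      linarith
  -- the sum of the bad parts
  have h2 : ∑ F : Row n → Fin (b + 1), ∑ σ : Fin d → Fin (B + 1) × Bool, ∑ z : Var n d → Bool,
      ∑ m, ∑ _r ∈ aliveRows F false, ∑ _r' ∈ aliveRows F true,
        (if BadClause F σ z K (bot m) then (1 : ℝ) else 0) * W ≤
      M * (n ^ 2 * (((2 / (b + 1)) ^ c0 + (2 / (B + 1)) ^ (l0 + 1)) *
        (W * wt0 b n * (2 * (B + 1)) ^ d)) * W) := by
    have e1 : ∑ F : Row n → Fin (b + 1), ∑ σ : Fin d → Fin (B + 1) × Bool, ∑ z : Var n d → Bool,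
        ∑ m, ∑ _r ∈ aliveRows F false, ∑ _r' ∈ aliveRows F true,
          (if BadClause F σ z K (bot m) then (1 : ℝ) else 0) * W =
        ∑ m, ∑ r ∈ side n false, ∑ r' ∈ side n true, ∑ F : Row n → Fin (b + 1),
          (if F r = 0 ∧ F r' = 0 then ∑ σ : Fin d → Fin (B + 1) × Bool,
            (cnt (fun z : Var n d → Bool => BadClause F σ z K (bot m)) : ℝ) * W else 0) := by
      have e2 : ∀ F : Row n → Fin (b + 1), ∑ σ : Fin d → Fin (B + 1) × Bool,
          ∑ z : Var n d → Bool, ∑ m, ∑ _r ∈ aliveRows F false, ∑ _r' ∈ aliveRows F true,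
          (if BadClause F σ z K (bot m) then (1 : ℝ) else 0) * W =
          ∑ m, ∑ _r ∈ aliveRows F false, ∑ _r' ∈ aliveRows F true,
          ∑ σ : Fin d → Fin (B + 1) × Bool,
            (cnt (fun z : Var n d → Bool => BadClause F σ z K (bot m)) : ℝ) * W := by
        intro F
        have e3 : ∀ σ : Fin d → Fin (B + 1) × Bool,
            ∑ z : Var n d → Bool, ∑ m, ∑ _r ∈ aliveRows F false, ∑ _r' ∈ aliveRows F true,
              (if BadClause F σ z K (bot m) then (1 : ℝ) else 0) * W =
            ∑ m, ∑ _r ∈ aliveRows F false, ∑ _r' ∈ aliveRows F true,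
              (cnt (fun z : Var n d → Bool => BadClause F σ z K (bot m)) : ℝ) * W := by
          intro σ
          rw [sum_comm]
          apply sum_congr rfl
          intro m _
          rw [sum_comm]
          apply sum_congr rfl
          intro r _
          rw [sum_comm]
          apply sum_congr rfl
          intro r' _
          rw [← sum_mul, ← cast_cnt]
        rw [sum_congr rfl fun σ _ => e3 σ, sum_comm]
        apply sum_congr rfl
        intro m _
        rw [sum_comm]
        apply sum_congr rfl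
        intro r _
        rw [sum_comm]
      rw [sum_congr rfl fun F _ => e2 F, sum_comm]
      apply sum_congr rfl
      intro m _
      exact reorder (fun F _ _ => ∑ σ : Fin d → Fin (B + 1) × Bool,
            (cnt (fun z : Var n d → Bool => BadClause F σ z K (bot m)) : ℝ) * W)
    rw [e1]
    have e4 : ∀ m : Fin M, ∀ r ∈ side n false, ∀ r' ∈ side n true,
        ∑ F : Row n → Fin (b + 1),
          (if F r = 0 ∧ F r' = 0 then ∑ σ : Fin d → Fin (B + 1) × Bool,
            (cnt (fun z : Var n d → Bool => BadClause F σ z K (bot m)) : ℝ) * W else 0) ≤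
        (((2 / (b + 1)) ^ c0 + (2 / (B + 1)) ^ (l0 + 1)) *
          (W * wt0 b n * (2 * (B + 1)) ^ d)) * W := by
      intro m r hr r' hr'
      have hb' := bad_bound (d := d) hb hB hK hc0 r r' (bot m)
      rw [wt_eq0 (ne_of_side hr hr')] at hb'
      have hb2 := mul_le_mul_of_nonneg_right hb' hW0.le
      refine le_trans (le_of_eq ?_) hb2
      rw [sum_mul]
      apply sum_congr rfl
      intro F _
      split_ifs
      · rw [sum_mul]
      · simp
    calc ∑ m, ∑ r ∈ side n false, ∑ r' ∈ side n true, ∑ F : Row n → Fin (b + 1),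
          (if F r = 0 ∧ F r' = 0 then ∑ σ : Fin d → Fin (B + 1) × Bool,
            (cnt (fun z : Var n d → Bool => BadClause F σ z K (bot m)) : ℝ) * W else 0)
        ≤ ∑ _m : Fin M, ∑ _r ∈ side n false, ∑ _r' ∈ side n true,
          (((2 / (b + 1)) ^ c0 + (2 / (B + 1)) ^ (l0 + 1)) *
          (W * wt0 b n * (2 * (B + 1)) ^ d)) * W :=
          sum_le_sum fun m _ => sum_le_sum fun r hr => sum_le_sum fun r' hr' => e4 m r hr r' hr'
      _ = _ := by
          rw [sum_const, sum_const, sum_const, card_side, card_side, card_univ, Fintype.card_fin,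
            nsmul_eq_mul, nsmul_eq_mul, nsmul_eq_mul]
          ring
  -- the sum of the good parts
  have h3 : ∑ F : Row n → Fin (b + 1), ∑ _σ : Fin d → Fin (B + 1) × Bool, ∑ _z : Var n d → Bool,
      (W * (2 * S * L ^ 2 + (((aliveRows F false).card : ℝ) + (aliveRows F true).card) * L) +
        ((aliveRows F false).card : ℝ) * (aliveRows F true).card * (S * (δ * W))) =
      (2 * (B + 1)) ^ d * W * (W * (2 * S * L ^ 2 * ((b + 1) ^ 2 * wt0 b n) +
        2 * (n * ((b + 1) * wt0 b n)) * L) + n ^ 2 * wt0 b n * (S * (δ * W))) := by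
    have e1 : ∀ F : Row n → Fin (b + 1), ∑ _σ : Fin d → Fin (B + 1) × Bool,
        ∑ _z : Var n d → Bool,
        (W * (2 * S * L ^ 2 + (((aliveRows F false).card : ℝ) + (aliveRows F true).card) * L) +
        ((aliveRows F false).card : ℝ) * (aliveRows F true).card * (S * (δ * W))) =
        (2 * (B + 1)) ^ d * W * (W * (2 * S * L ^ 2) + W * L * ((aliveRows F false).card : ℝ) +
          W * L * ((aliveRows F true).card : ℝ) +
          ∑ _r ∈ aliveRows F false, ∑ _r' ∈ aliveRows F true, (S * (δ * W))) := by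
      intro F
      simp only [sum_const, card_univ, nsmul_eq_mul, card_sigma]
      rw [← hW]
      ring
    rw [sum_congr rfl fun F _ => e1 F, ← mul_sum]
    simp only [sum_add_distrib, ← mul_sum]
    rw [sum_alive2, sum_alive_card, sum_alive_card, sum_const, card_univ, nsmul_eq_mul,
      card_colorings]
    ring
  have h4 : |Dif b B (fun x : Var n d → Bool => if Sigma3 bot mid x then (1 : ℝ) else 0)| ≤
      ∑ F : Row n → Fin (b + 1), ∑ σ : Fin d → Fin (B + 1) × Bool, ∑ z : Var n d → Bool,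
      ∑ r ∈ aliveRows F false, ∑ r' ∈ aliveRows F true, |∑ w : Var n d → Bool,
        ((if Sigma3 bot mid (inst F σ z (plant σ r r' w)) then (1 : ℝ) else 0) -
          (if Sigma3 bot mid (inst F σ z w) then (1 : ℝ) else 0))| := by
    unfold Dif
    refine le_trans (abs_sum_le_sum_abs _ _) (sum_le_sum fun F _ => ?_)
    refine le_trans (abs_sum_le_sum_abs _ _) (sum_le_sum fun σ _ => ?_)
    refine le_trans (abs_sum_le_sum_abs _ _) (sum_le_sum fun z _ => ?_)
    refine le_trans (abs_sum_le_sum_abs _ _) (sum_le_sum fun r _ => ?_)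
    exact abs_sum_le_sum_abs _ _
  have h5 := le_trans h4 (sum_le_sum fun F _ => sum_le_sum fun σ _ => sum_le_sum fun z _ =>
    h1 F σ z)
  simp only [sum_add_distrib] at h5 h3
  have h6 : mass n d b B * eta n b B M S K N c0 l0 =
      (2 * (B + 1)) ^ d * W * (W * (2 * S * L ^ 2 * ((b + 1) ^ 2 * wt0 b n) +
        2 * (n * ((b + 1) * wt0 b n)) * L) + n ^ 2 * wt0 b n * (S * (δ * W))) +
      M * (n ^ 2 * (((2 / (b + 1)) ^ c0 + (2 / (B + 1)) ^ (l0 + 1)) *
        (W * wt0 b n * (2 * (B + 1)) ^ d)) * W) := by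
    unfold mass eta
    rw [← hW, ← hL, ← hδ]
    field_simp
  rw [h6]
  linarith

end core

end Pool.Agent.V8H16.OV
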