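import Mathlib
import Pool.Agent.V8H16.OV.Core

/-!
# The choice of the parameters
-/

set_option autoImplicit false
set_option linter.unusedSectionVars false

open Finset Filter

namespace Pool.Agent.V8H16.OV

theorem eventually_log (γ A : ℝ) (hγ : 0 < γ) (k : ℕ) :
    ∃ n₀ : ℕ, ∀ n : ℕ, n₀ ≤ n → A * Real.log n ^ k ≤ (n : ℝ) ^ γ := by
  have h1 : (fun x : ℝ => A * Real.log x ^ k) =o[atTop] fun x => x ^ γ := by
    have := (isLittleO_log_rpow_rpow_atTop (k : ℝ) hγ).const_mul_left A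
    simpa only [Real.rpow_natCast] using this
  have h2 := (h1.bound (c := 1) one_pos)
  have h3 := (tendsto_natCast_atTop_atTop (R := ℝ)).eventually h2
  obtain ⟨n₀, hn₀⟩ := eventually_atTop.1 h3
  refine ⟨n₀, fun n hn => ?_⟩
  have h4 := hn₀ n hn
  rw [one_mul, Real.norm_eq_abs, Real.norm_eq_abs, abs_of_nonneg (Real.rpow_nonneg (Nat.cast_nonneg n) γ)] at h4
  exact le_trans (le_abs_self _) h4

theorem one_sub_pow_le {y : ℝ} (hy : y ≤ 1) (N : ℕ) : (1 - y) ^ N ≤ Real.exp (-(y * N)) := by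
  have h1 : 1 - y ≤ Real.exp (-y) := by
    have := Real.add_one_le_exp (-y)
    linarith
  calc (1 - y) ^ N ≤ Real.exp (-y) ^ N := pow_le_pow_left₀ (by linarith) h1 N
    _ = Real.exp (-(y * N)) := by
      rw [← Real.exp_nat_mul]
      congr 1
      ring

theorem param (ε c : ℝ) (hε : 0 < ε) : ∃ C : ℝ, ∃ a : ℝ, 0 < a ∧ ∃ n₀ : ℕ, ∀ n d M S : ℕ, n₀ ≤ n →
    C * Real.log n ≤ d → (M : ℝ) ≤ (n : ℝ) ^ c → (S : ℝ) ≤ (n : ℝ) ^ (2 - ε) →
    ∃ b B K N c0 l0 : ℕ, 1 ≤ n ∧ 1 ≤ b ∧ 1 ≤ B ∧ 2 * (c0 + 1) * l0 ≤ K ∧ 1 ≤ c0 ∧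
      eta n b B M S K N c0 l0 + 16 * n ^ 2 * (1 - 1 / (4 * (B + 1))) ^ d < (n : ℝ) ^ (-a) := by
  set γ : ℝ := min ε 1 / 16 with hγ
  have hγ0 : 0 < γ := by
    rw [hγ]
    have : 0 < min ε 1 := lt_min hε one_pos
    positivity
  have hγ1 : 16 * γ ≤ ε := by
    rw [hγ]
    have := min_le_left ε 1
    linarith
  have hγ2 : 16 * γ ≤ 1 := by
    rw [hγ]
    have := min_le_right ε 1
    linarith
  set c' : ℝ := max c 0 with hc'
  have hcc : c ≤ c' := le_max_left _ _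
  have hc0' : 0 ≤ c' := le_max_right _ _
  set c0 : ℕ := ⌈(c' + 1) / γ⌉₊ with hc0
  have hc0γ : c' + 1 ≤ γ * c0 := by
    have h := Nat.le_ceil ((c' + 1) / γ)
    rw [← hc0, div_le_iff₀ hγ0] at h
    linarith
  have hc0pos : 1 ≤ c0 := by
    by_contra h
    have : c0 = 0 := by omega
    rw [this] at hc0γ
    simp at hc0γ
    linarith
  set E : ℕ := 2 * (c0 + 1) * c0 with hE
  set B : ℕ := 2 ^ (E + 1) - 1 with hB
  have hEpos : 1 ≤ 2 ^ (E + 1) := Nat.one_le_two_pow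
  have hB1 : 1 ≤ B := by
    have : 2 ^ 1 ≤ 2 ^ (E + 1) := Nat.pow_le_pow_right (by norm_num) (by omega)
    omega
  have hBc : (B : ℝ) + 1 = 2 ^ (E + 1) := by
    have : B + 1 = 2 ^ (E + 1) := by omega
    exact_mod_cast this
  obtain ⟨n1, hn1⟩ := eventually_log γ 5 hγ0 3
  obtain ⟨n2, hn2⟩ := eventually_log (9 * γ) (43 + 2 ^ c0) (by linarith) 0
  refine ⟨12 * (B + 1), γ, hγ0, max (max n1 n2) 3, ?_⟩
  intro n d M S hn hd hM hS
  have hnn1 : n1 ≤ n := le_trans (le_max_left _ _) (le_trans (le_max_left _ _) hn)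
  have hnn2 : n2 ≤ n := le_trans (le_max_right _ _) (le_trans (le_max_left _ _) hn)
  have hn3 : 3 ≤ n := le_trans (le_max_right _ _) hn
  have hx3 : (3 : ℝ) ≤ n := by exact_mod_cast hn3
  have hx1 : (1 : ℝ) ≤ n := by linarith
  have hx0 : (0 : ℝ) < n := by linarith
  set ln : ℝ := Real.log n with hln
  have hln1 : 1 ≤ ln := by
    rw [hln, Real.le_log_iff_exp_le hx0]
    have := Real.exp_one_lt_d9
    linarith
  -- the parameters
  set K : ℕ := ⌊γ * Real.logb 2 n⌋₊ with hK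
  have hlogb : Real.logb 2 n = ln / Real.log 2 := rfl
  have hl2 : (0.6931471803 : ℝ) < Real.log 2 := Real.log_two_gt_d9
  have hlogb0 : 0 ≤ γ * Real.logb 2 n := by
    rw [hlogb]
    positivity
  have hKle : (K : ℝ) ≤ γ * Real.logb 2 n := Nat.floor_le hlogb0
  have hKlt : γ * Real.logb 2 n < K + 1 := Nat.lt_floor_add_one _
  have hpowx : (2 : ℝ) ^ (γ * Real.logb 2 n) = (n : ℝ) ^ γ := by
    rw [mul_comm, Real.rpow_mul (by norm_num), Real.rpow_logb (by norm_num) (by norm_num) hx0]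
  have h2K : (2 : ℝ) ^ K ≤ (n : ℝ) ^ γ := by
    rw [← hpowx, ← Real.rpow_natCast]
    exact Real.rpow_le_rpow_of_exponent_le (by norm_num) hKle
  have h2K1 : (n : ℝ) ^ γ ≤ 2 ^ (K + 1) := by
    rw [← hpowx, ← Real.rpow_natCast]
    apply Real.rpow_le_rpow_of_exponent_le (by norm_num)
    push_cast
    exact hKlt.le
  have hKln : (K : ℝ) ≤ ln := by
    refine le_trans hKle ?_
    rw [hlogb, ← mul_div_assoc, div_le_iff₀ (by linarith)]
    nlinarith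
  have hxγ1 : (1 : ℝ) ≤ (n : ℝ) ^ γ := Real.one_le_rpow hx1 hγ0.le
  set N : ℕ := ⌈(2 : ℝ) ^ K * (4 * ln)⌉₊ with hN
  have hNge : (2 : ℝ) ^ K * (4 * ln) ≤ N := Nat.le_ceil _
  have hNle : (N : ℝ) ≤ 5 * (n : ℝ) ^ γ * ln := by
    have h1 := (Nat.ceil_lt_add_one (a := (2 : ℝ) ^ K * (4 * ln)) (by positivity)).le
    have h2 : (2 : ℝ) ^ K * (4 * ln) ≤ (n : ℝ) ^ γ * (4 * ln) :=
      mul_le_mul_of_nonneg_right h2K (by positivity)
    have h3 : (1 : ℝ) ≤ (n : ℝ) ^ γ * ln := by nlinarith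
    linarith
  have hLle : ((K * K * N : ℕ) : ℝ) ≤ (n : ℝ) ^ (2 * γ) := by
    push_cast
    calc (K : ℝ) * K * N ≤ ln * ln * (5 * (n : ℝ) ^ γ * ln) := by gcongr
      _ = (5 * ln ^ 3) * (n : ℝ) ^ γ := by ring
      _ ≤ (n : ℝ) ^ γ * (n : ℝ) ^ γ := mul_le_mul_of_nonneg_right (hn1 n hnn1) (by positivity)
      _ = (n : ℝ) ^ (2 * γ) := by rw [← Real.rpow_add hx0]; congr 1; ring
  set b : ℕ := ⌈(n : ℝ) ^ γ⌉₊ with hb
  have hbge : (n : ℝ) ^ γ ≤ b := Nat.le_ceil _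
  have hb1 : 1 ≤ b := by
    have : (1 : ℝ) ≤ b := le_trans hxγ1 hbge
    exact_mod_cast this
  have hble : (b : ℝ) + 1 ≤ 3 * (n : ℝ) ^ γ := by
    have := (Nat.ceil_lt_add_one (a := (n : ℝ) ^ γ) (by positivity)).le
    rw [← hb] at this
    linarith
  set l0 : ℕ := K / (2 * (c0 + 1)) with hl0
  have hl0le : 2 * (c0 + 1) * l0 ≤ K := Nat.mul_div_le K _
  have hl0ge : K + 1 ≤ 2 * (c0 + 1) * (l0 + 1) := by
    have := Nat.lt_mul_div_succ K (show 0 < 2 * (c0 + 1) by omega)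
    rw [← hl0] at this
    omega
  refine ⟨b, B, K, N, c0, l0, by omega, hb1, hB1, hl0le, hc0pos, ?_⟩
  -- the estimates
  set u : ℝ := (n : ℝ) ^ (-(10 * γ)) with hu
  have hu0 : 0 < u := Real.rpow_pos_of_pos hx0 _
  have hinv : (n : ℝ) ^ (-1 : ℝ) ≤ u := Real.rpow_le_rpow_of_exponent_le hx1 (by linarith)
  have hS2 : (S : ℝ) ≤ (n : ℝ) ^ (2 - 16 * γ) :=
    le_trans hS (Real.rpow_le_rpow_of_exponent_le hx1 (by linarith))
  have hM2 : (M : ℝ) ≤ (n : ℝ) ^ c' := le_trans hM (Real.rpow_le_rpow_of_exponent_le hx1 hcc)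
  have hn2eq : (n : ℝ) ^ 2 = (n : ℝ) ^ (2 : ℝ) := by norm_num
  have T1 : 2 * S * ((K * K * N : ℕ) : ℝ) ^ 2 * (b + 1) ^ 2 / n ^ 2 ≤ 18 * u := by
    rw [div_le_iff₀ (by positivity)]
    calc 2 * S * ((K * K * N : ℕ) : ℝ) ^ 2 * (b + 1) ^ 2
        ≤ 2 * (n : ℝ) ^ (2 - 16 * γ) * ((n : ℝ) ^ (2 * γ)) ^ 2 * (3 * (n : ℝ) ^ γ) ^ 2 := by gcongr
      _ = 18 * ((n : ℝ) ^ (2 - 16 * γ) * ((n : ℝ) ^ (2 * γ) * (n : ℝ) ^ (2 * γ)) *
          ((n : ℝ) ^ γ * (n : ℝ) ^ γ)) := by ring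
      _ = 18 * (n : ℝ) ^ (2 - 10 * γ) := by
          rw [← Real.rpow_add hx0, ← Real.rpow_add hx0, ← Real.rpow_add hx0,
            ← Real.rpow_add hx0]
          congr 2
          ring
      _ = 18 * u * n ^ 2 := by
          rw [hn2eq, hu, mul_assoc, ← Real.rpow_add hx0]
          congr 2
          ring
  have T2 : 2 * ((K * K * N : ℕ) : ℝ) * (b + 1) / n ≤ 6 * u := by
    rw [div_le_iff₀ hx0]
    calc 2 * ((K * K * N : ℕ) : ℝ) * (b + 1) ≤ 2 * (n : ℝ) ^ (2 * γ) * (3 * (n : ℝ) ^ γ) := by gcongr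
      _ = 6 * ((n : ℝ) ^ (2 * γ) * (n : ℝ) ^ γ) := by ring
      _ = 6 * (n : ℝ) ^ (3 * γ) := by
          rw [← Real.rpow_add hx0]
          congr 2
          ring
      _ ≤ 6 * (n : ℝ) ^ (1 - 10 * γ) := by
          apply mul_le_mul_of_nonneg_left _ (by norm_num)
          exact Real.rpow_le_rpow_of_exponent_le hx1 (by linarith)
      _ = 6 * u * n := by
          rw [hu, mul_assoc]
          congr 1
          nth_rewrite 3 [← Real.rpow_one (n : ℝ)]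
          rw [← Real.rpow_add hx0]
          congr 1
          ring
  have hpow2 : (1 / 2 : ℝ) ^ K ≤ 1 := pow_le_one₀ (by norm_num) (by norm_num)
  have T3 : S * (1 - (1 / 2 : ℝ) ^ K) ^ N ≤ 1 * u := by
    have h1 : (1 - (1 / 2 : ℝ) ^ K) ^ N ≤ (n : ℝ) ^ (-4 : ℝ) := by
      refine le_trans (one_sub_pow_le hpow2 N) ?_
      rw [Real.rpow_def_of_pos hx0, Real.exp_le_exp]
      have h2 : (1 / 2 : ℝ) ^ K * ((2 : ℝ) ^ K * (4 * ln)) ≤ (1 / 2 : ℝ) ^ K * N :=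
        mul_le_mul_of_nonneg_left hNge (by positivity)
      have h3 : (1 / 2 : ℝ) ^ K * ((2 : ℝ) ^ K * (4 * ln)) = 4 * ln := by
        rw [← mul_assoc, ← mul_pow]
        norm_num
      rw [← hln]
      linarith
    calc S * (1 - (1 / 2 : ℝ) ^ K) ^ N ≤ (n : ℝ) ^ (2 - 16 * γ) * (n : ℝ) ^ (-4 : ℝ) := by
          apply mul_le_mul hS2 h1 (pow_nonneg (by linarith) _) (by positivity)
      _ = (n : ℝ) ^ (-2 - 16 * γ) := by
          rw [← Real.rpow_add hx0]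
          congr 1
          ring
      _ ≤ 1 * u := by
          rw [one_mul]
          exact Real.rpow_le_rpow_of_exponent_le hx1 (by linarith)
  have hcγ : (n : ℝ) ^ c' * ((n : ℝ) ^ (-γ)) ^ c0 ≤ (n : ℝ) ^ (-1 : ℝ) := by
    rw [← Real.rpow_natCast, ← Real.rpow_mul hx0.le, ← Real.rpow_add hx0]
    apply Real.rpow_le_rpow_of_exponent_le hx1
    linarith
  have T4 : M * (2 / ((b : ℝ) + 1)) ^ c0 ≤ 2 ^ c0 * u := by
    have h1 : 2 / ((b : ℝ) + 1) ≤ 2 * (n : ℝ) ^ (-γ) := by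
      rw [Real.rpow_neg hx0.le, ← div_eq_mul_inv]
      apply div_le_div_of_nonneg_left (by norm_num) (by positivity)
      linarith
    calc M * (2 / ((b : ℝ) + 1)) ^ c0 ≤ (n : ℝ) ^ c' * (2 * (n : ℝ) ^ (-γ)) ^ c0 := by gcongr
      _ = 2 ^ c0 * ((n : ℝ) ^ c' * ((n : ℝ) ^ (-γ)) ^ c0) := by
          rw [mul_pow]
          ring
      _ ≤ 2 ^ c0 * u := mul_le_mul_of_nonneg_left (hcγ.trans hinv) (by positivity)
  have T5 : M * (2 / ((B : ℝ) + 1)) ^ (l0 + 1) ≤ 1 * u := by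
    have h1 : (2 / ((B : ℝ) + 1)) ^ (l0 + 1) ≤ ((n : ℝ) ^ (-γ)) ^ c0 := by
      rw [hBc]
      have h2 : (2 : ℝ) / 2 ^ (E + 1) = (1 / 2) ^ E := by
        rw [pow_succ, one_div, inv_pow]
        field_simp
      rw [h2, ← pow_mul]
      have h3 : (K + 1) * c0 ≤ E * (l0 + 1) := by
        rw [hE]
        calc (K + 1) * c0 ≤ 2 * (c0 + 1) * (l0 + 1) * c0 := Nat.mul_le_mul_right _ hl0ge
          _ = 2 * (c0 + 1) * c0 * (l0 + 1) := by ring
      calc (1 / 2 : ℝ) ^ (E * (l0 + 1)) ≤ (1 / 2 : ℝ) ^ ((K + 1) * c0) :=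
            pow_le_pow_of_le_one (by norm_num) (by norm_num) h3
        _ = ((1 / 2 : ℝ) ^ (K + 1)) ^ c0 := by rw [pow_mul]
        _ ≤ ((n : ℝ) ^ (-γ)) ^ c0 := by
            apply pow_le_pow_left₀ (by positivity)
            rw [Real.rpow_neg hx0.le, one_div, inv_pow]
            exact inv_anti₀ (by positivity) h2K1
    calc M * (2 / ((B : ℝ) + 1)) ^ (l0 + 1) ≤ (n : ℝ) ^ c' * ((n : ℝ) ^ (-γ)) ^ c0 := by gcongr
      _ ≤ 1 * u := by
          rw [one_mul]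
          exact hcγ.trans hinv
  have T6 : 16 * (n : ℝ) ^ 2 * (1 - 1 / (4 * (B + 1))) ^ d ≤ 16 * u := by
    have hB0 : (0 : ℝ) < 4 * (B + 1) := by positivity
    have h1 : (1 : ℝ) / (4 * (B + 1)) ≤ 1 := by
      rw [div_le_one hB0]
      have : (0 : ℝ) ≤ B := Nat.cast_nonneg _
      linarith
    have h2 : (1 - 1 / (4 * ((B : ℝ) + 1))) ^ d ≤ (n : ℝ) ^ (-3 : ℝ) := by
      refine le_trans (one_sub_pow_le h1 d) ?_
      rw [Real.rpow_def_of_pos hx0, Real.exp_le_exp, ← hln]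
      have h3 : 1 / (4 * ((B : ℝ) + 1)) * (12 * (B + 1) * ln) ≤ 1 / (4 * ((B : ℝ) + 1)) * d :=
        mul_le_mul_of_nonneg_left hd (by positivity)
      have h4 : 1 / (4 * ((B : ℝ) + 1)) * (12 * (B + 1) * ln) = 3 * ln := by
        field_simp
        norm_num
      linarith
    calc 16 * (n : ℝ) ^ 2 * (1 - 1 / (4 * (B + 1))) ^ d ≤ 16 * (n : ℝ) ^ 2 * (n : ℝ) ^ (-3 : ℝ) := by
          gcongr
      _ = 16 * (n : ℝ) ^ (-1 : ℝ) := by
          rw [hn2eq, mul_assoc, ← Real.rpow_add hx0]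
          norm_num
      _ ≤ 16 * u := mul_le_mul_of_nonneg_left hinv (by norm_num)
  have hfin : (43 + 2 ^ c0) * u ≤ (n : ℝ) ^ (-γ) := by
    have h1 := hn2 n hnn2
    rw [pow_zero, mul_one] at h1
    calc (43 + 2 ^ c0) * u ≤ (n : ℝ) ^ (9 * γ) * u := mul_le_mul_of_nonneg_right h1 hu0.le
      _ = (n : ℝ) ^ (-γ) := by
          rw [hu, ← Real.rpow_add hx0]
          congr 1
          ring
  have heta : eta n b B M S K N c0 l0 = 2 * S * ((K * K * N : ℕ) : ℝ) ^ 2 * (b + 1) ^ 2 / n ^ 2 +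
      2 * ((K * K * N : ℕ) : ℝ) * (b + 1) / n + S * (1 - (1 / 2) ^ K) ^ N +
      (M * (2 / ((b : ℝ) + 1)) ^ c0 + M * (2 / ((B : ℝ) + 1)) ^ (l0 + 1)) := by
    unfold eta
    rw [← mul_add (M : ℝ)]
  rw [heta]
  linarith

end Pool.Agent.V8H16.OV
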