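import Mathlib
import Pool.Agent.V8H16.OV.Core

/-!
# Randomized circuits of depth three
-/

set_option autoImplicit false
set_option linter.unusedSectionVars false

open Finset Classical

namespace Pool.Agent.V8H16.OV

/-- A circuit of depth three. The bottom gates are sets of literals (pairs of a variable and a bit),
the middle gates are sets of bottom gates. If `top` is true then the bottom gates are disjunctions,
the middle gates are conjunctions and the output gate is a disjunction, else vice versa. -/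
structure Circuit3 (n d M S : ℕ) where
  bot : Fin M → Finset (Var n d × Bool)
  mid : Fin S → Finset (Fin M)
  top : Bool

/-- The circuit accepts `x`. -/
def Circuit3.acc {n d M S : ℕ} (C : Circuit3 n d M S) (x : Var n d → Bool) : Prop :=
  if C.top = true then ∃ s, ∀ m ∈ C.mid s, ∃ l ∈ C.bot m, x l.1 = l.2
  else ∀ s, ∃ m ∈ C.mid s, ∀ l ∈ C.bot m, x l.1 = l.2

section three

variable {n d b B M S : ℕ}

/-- The negated literals. -/
noncomputable def flip (c : Finset (Var n d × Bool)) : Finset (Var n d × Bool) :=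
  c.image fun l => (l.1, !l.2)

theorem sat_flip (x : Var n d → Bool) (c : Finset (Var n d × Bool)) :
    Sat x (flip c) ↔ ¬ ∀ l ∈ c, x l.1 = l.2 := by
  constructor
  · rintro ⟨l, hl, e⟩ h
    obtain ⟨l', hl', rfl⟩ := mem_image.1 hl
    have := h l' hl'
    simp only at e
    rw [this] at e
    cases l'.2 <;> simp at e
  · intro h
    push Not at h
    obtain ⟨l, hl, e⟩ := h
    refine ⟨(l.1, !l.2), mem_image.2 ⟨l, hl, rfl⟩, ?_⟩
    show x l.1 = !l.2
    cases h1 : x l.1 <;> cases h2 : l.2 <;> simp_all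

theorem acc_top (C : Circuit3 n d M S) (h : C.top = true) (x : Var n d → Bool) :
    C.acc x ↔ Sigma3 C.bot C.mid x := by
  unfold Circuit3.acc
  rw [if_pos h]
  rfl

theorem acc_bot (C : Circuit3 n d M S) (h : ¬ C.top = true) (x : Var n d → Bool) :
    C.acc x ↔ ¬ Sigma3 (fun m => flip (C.bot m)) C.mid x := by
  unfold Circuit3.acc
  rw [if_neg h]
  unfold Sigma3
  simp only [sat_flip]
  push Not
  rfl

theorem dif_one_sub (g : (Var n d → Bool) → ℝ) : Dif b B (fun x => 1 - g x) = - Dif b B g := by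
  unfold Dif
  simp only [← sum_neg_distrib]
  refine sum_congr rfl fun F _ => sum_congr rfl fun σ _ => sum_congr rfl fun z _ =>
    sum_congr rfl fun r _ => sum_congr rfl fun r' _ => sum_congr rfl fun w _ => ?_
  ring

theorem dif_sum {Ω : Type*} (s : Finset Ω) (p : Ω → ℝ) (g : Ω → (Var n d → Bool) → ℝ) :
    Dif b B (fun x => ∑ ω ∈ s, p ω * g ω x) = ∑ ω ∈ s, p ω * Dif b B (g ω) := by
  induction s using Finset.induction_on with
  | empty => simp [Dif]
  | insert a s ha ih =>
    rw [sum_insert ha, ← ih]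
    unfold Dif
    simp only [mul_sum, ← sum_add_distrib]
    refine sum_congr rfl fun F _ => sum_congr rfl fun σ _ => sum_congr rfl fun z _ =>
      sum_congr rfl fun r _ => sum_congr rfl fun r' _ => sum_congr rfl fun w _ => ?_
    rw [sum_insert ha, sum_insert ha]
    ring

theorem dif_acc (hn : 1 ≤ n) (hb : 1 ≤ b) (hB : 1 ≤ B) {K N c0 l0 : ℕ}
    (hK : 2 * (c0 + 1) * l0 ≤ K) (hc0 : 1 ≤ c0) (C : Circuit3 n d M S) :
    Dif b B (fun x : Var n d → Bool => if C.acc x then (1 : ℝ) else 0) ≤
      mass n d b B * eta n b B M S K N c0 l0 := by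
  by_cases h : C.top = true
  · simp only [acc_top C h]
    exact le_trans (le_abs_self _) (dif_upper hn hb hB hK hc0 _ _)
  · simp only [acc_bot C h]
    have e : (fun x : Var n d → Bool =>
        if ¬ Sigma3 (fun m => flip (C.bot m)) C.mid x then (1 : ℝ) else 0) =
        fun x => 1 - (if Sigma3 (fun m => flip (C.bot m)) C.mid x then (1 : ℝ) else 0) := by
      funext x
      by_cases hx : Sigma3 (fun m => flip (C.bot m)) C.mid x <;> simp [hx]
    rw [e, dif_one_sub]
    exact le_trans (neg_le_abs _) (dif_upper hn hb hB hK hc0 _ _)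

/-- The error probability of a randomized circuit. -/
noncomputable def err {Ω : Type*} [Fintype Ω] (p : Ω → ℝ) (A : Ω → Prop) (P : Prop) : ℝ :=
  ∑ ω, if (A ω ↔ P) then 0 else p ω

theorem core_three (hn : 1 ≤ n) (hb : 1 ≤ b) (hB : 1 ≤ B) {K N c0 l0 : ℕ}
    (hK : 2 * (c0 + 1) * l0 ≤ K) (hc0 : 1 ≤ c0) {Ω : Type*} [Fintype Ω] (p : Ω → ℝ)
    (hp : ∀ ω, 0 ≤ p ω) (hp1 : ∑ ω, p ω = 1) (C : Ω → Circuit3 n d M S) {Δ : ℝ} (hΔ : Δ ≤ 1)
    (herr : ∀ x, Valid x → err p (fun ω => (C ω).acc x) (Orth x) ≤ (1 - Δ) / 2) :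
    Δ ≤ eta n b B M S K N c0 l0 + 16 * n ^ 2 * (1 - 1 / (4 * (B + 1))) ^ d := by
  set g : (Var n d → Bool) → ℝ := fun x => ∑ ω, p ω * (if (C ω).acc x then (1 : ℝ) else 0) with hg
  have hg0 : ∀ x, 0 ≤ g x := fun x => sum_nonneg fun ω _ =>
    mul_nonneg (hp ω) (by split_ifs <;> norm_num)
  have hg1 : ∀ x, g x ≤ 1 := by
    intro x
    rw [← hp1]
    refine sum_le_sum fun ω _ => ?_
    split_ifs
    · rw [mul_one]
    · rw [mul_zero]
      exact hp ω
  have hyes : ∀ x, Orth x → g x = 1 - err p (fun ω => (C ω).acc x) (Orth x) := by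
    intro x hx
    rw [← hp1, hg]
    unfold err
    rw [← sum_sub_distrib]
    refine sum_congr rfl fun ω _ => ?_
    by_cases h : (C ω).acc x <;> simp [h, hx]
  have hno : ∀ x, ¬ Orth x → g x = err p (fun ω => (C ω).acc x) (Orth x) := by
    intro x hx
    rw [hg]
    unfold err
    refine sum_congr rfl fun ω _ => ?_
    by_cases h : (C ω).acc x <;> simp [h, hx]
  have h1 := dif_lower (b := b) (B := B) (n := n) (d := d) (g := g) (Δ := Δ) (A := 2)
    (by norm_num)
    (by
      intro x y hx hy hox hoy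
      rw [hyes x hox, hno y hoy]
      have := herr x hx
      have := herr y hy
      linarith)
    (by
      intro x y
      have := hg0 x
      have := hg1 y
      linarith)
  have h2 : Dif b B g ≤ mass n d b B * eta n b B M S K N c0 l0 := by
    rw [hg, dif_sum]
    calc ∑ ω, p ω * Dif b B (fun x => if (C ω).acc x then (1 : ℝ) else 0)
        ≤ ∑ ω, p ω * (mass n d b B * eta n b B M S K N c0 l0) :=
          sum_le_sum fun ω _ => mul_le_mul_of_nonneg_left (dif_acc hn hb hB hK hc0 (C ω)) (hp ω)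
      _ = _ := by rw [← sum_mul, hp1, one_mul]
  have h3 := le_of_mul_le_mul_left (h1.trans h2) (mass_pos hn)
  linarith

end three

end Pool.Agent.V8H16.OV
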