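import Mathlib
import Pool.Agent.V8H16.OV.Three
import Pool.Agent.V8H16.OV.Param

/-!
# Randomized circuits of depth three: the lower bound
-/

set_option autoImplicit false

open Finset Classical

namespace Pool.Agent.V8H16.OV

theorem depth_three (ε c : ℝ) (hε : 0 < ε) : ∃ C a : ℝ, 0 < a ∧ ∃ n₀ : ℕ, ∀ n d M S : ℕ,
    n₀ ≤ n → C * Real.log n ≤ d → (M : ℝ) ≤ (n : ℝ) ^ c → (S : ℝ) ≤ (n : ℝ) ^ (2 - ε) →
    ∀ (Ω : Type) [Fintype Ω] (p : Ω → ℝ), (∀ ω, 0 ≤ p ω) → ∑ ω, p ω = 1 →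
    ∀ D : Ω → Circuit3 n d M S, ∃ x : Var n d → Bool, Valid x ∧
      (1 - (n : ℝ) ^ (-a)) / 2 ≤ err p (fun ω => (D ω).acc x) (Orth x) := by
  obtain ⟨C, a, ha, n₀, h⟩ := param ε c hε
  refine ⟨C, a, ha, max n₀ 1, ?_⟩
  intro n d M S hn hd hM hS Ω _ p hp hp1 D
  obtain ⟨b, B, K, N, c0, l0, hn1, hb, hB, hK, hc0, hlt⟩ :=
    h n d M S (le_trans (le_max_left _ _) hn) hd hM hS
  by_contra hcon
  push Not at hcon
  have hΔ : (n : ℝ) ^ (-a) ≤ 1 :=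
    Real.rpow_le_one_of_one_le_of_nonpos (by exact_mod_cast hn1) (by linarith)
  have := core_three (N := N) hn1 hb hB hK hc0 p hp hp1 D hΔ fun x hx => (hcon x hx).le
  linarith

end Pool.Agent.V8H16.OV
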